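import Pool.Agent.N337.SD.Stm

set_option autoImplicit false
set_option linter.unusedSectionVars false
set_option linter.unusedVariables false

/-! Project SD: assembly. -/

namespace Pool.Agent.N337.SD

open Finset Module
open scoped Classical LinearAlgebra.Projectivization

theorem lem_all (h2 : StPl) (hind : StInd) : ∀ m, 2 ≤ m → StLem m := by
  intro m hm
  induction m, hm using Nat.le_induction with
  | base => exact h2
  | succ m hm ih => exact hind m hm ih

theorem th_lt {q m m' : ℕ} (hq : 1 ≤ q) (h : m < m') : th q m < th q m' := by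
  unfold th
  refine Finset.sum_lt_sum_of_subset (i := m) (Finset.range_subset_range.2 h.le)
    (Finset.mem_range.2 h) (by simp) (Nat.pow_pos hq) (fun j _ _ => Nat.zero_le _)

/-- the points of a subspace -/
noncomputable def pts {F : Type} [Field F] [Fintype F] {d : ℕ}
    (H : Submodule F (Fin (d + 1) → F)) : Finset (ℙ F (Fin (d + 1) → F)) :=
  univ.filter fun x => x.submodule ≤ H

theorem mem_hyp {F : Type} [Field F] [Fintype F] {d : ℕ} {b : Finset (ℙ F (Fin (d + 1) → F))} :
    b ∈ hyp F d ↔ ∃ H : Submodule F (Fin (d + 1) → F), finrank F H = d ∧ pts H = b := by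
  unfold hyp pts
  simp

theorem cnt_pts {F : Type} [Field F] [Fintype F] {d : ℕ} (T : Finset (ℙ F (Fin (d + 1) → F)))
    (H : Submodule F (Fin (d + 1) → F)) :
    cnt (T.image Projectivization.submodule) H = (T ∩ pts H).card := by
  unfold cnt
  rw [Finset.filter_image, Finset.card_image_of_injective _ Projectivization.submodule_injective]
  congr 1
  ext x
  simp [pts]

/-- **The switching distance from the hyperplanes.** -/
theorem far (hgen : StGen) (hrys : StRyser) (h2 : StPl) (hind : StInd) (hpg : StPG)
    (F : Type) [Field F] [Fintype F] (d : ℕ) (hd : 3 ≤ d)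
    (𝓑 : Finset (Finset (ℙ F (Fin (d + 1) → F))))
    (hB : IsSymm (th (Fintype.card F) d) (th (Fintype.card F) (d - 1)) 𝓑) (hne : 𝓑 ≠ hyp F d) :
    2 * Fintype.card F ≤ (hyp F d \ 𝓑).card := by
  obtain ⟨q, hq⟩ : ∃ q, q = Fintype.card F := ⟨_, rfl⟩
  have hq2 : 2 ≤ q := hq ▸ Fintype.one_lt_card
  obtain ⟨hcard, hH⟩ := hpg F d (by omega)
  rw [← hq] at hB hcard hH ⊢
  -- a block which is not a hyperplane
  obtain ⟨T, hT, hTh⟩ : ∃ T ∈ 𝓑, T ∉ hyp F d := by
    by_contra hc
    push Not at hc
    exact hne (Finset.eq_of_subset_of_card_le hc (by rw [hB.card_blocks, hH.card_blocks]))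
  have hdim : finrank F (Fin (d + 1) → F) = d + 1 := by simp
  have h1 := lem_all h2 hind d (by omega) hdim (T.image Projectivization.submodule)
    (by
      intro p hp
      rw [mem_image] at hp
      obtain ⟨x, _, rfl⟩ := hp
      exact Projectivization.finrank_submodule x)
    (by rw [Finset.card_image_of_injective _ Projectivization.submodule_injective, hB.size T hT, hq])
    (by
      rintro ⟨H, hHd, hTH⟩
      apply hTh
      rw [mem_hyp]
      refine ⟨H, hHd, (Finset.eq_of_subset_of_card_le ?_ ?_).symm⟩
      · intro x hx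
        rw [pts, mem_filter]
        exact ⟨mem_univ _, hTH _ (mem_image_of_mem _ hx)⟩
      · rw [hB.size T hT, hH.size _ (mem_hyp.2 ⟨H, hHd, rfl⟩)])
  rw [← hq] at h1
  refine h1.trans ?_
  rw [← Set.ncard_coe_finset]
  refine Set.ncard_le_ncard_of_injOn pts ?_ ?_ (Set.toFinite _)
  · rintro H ⟨hHd, hcnt⟩
    rw [mem_coe, mem_sdiff]
    refine ⟨mem_hyp.2 ⟨H, hHd, rfl⟩, fun hHB => hcnt ?_⟩
    have hne' : T ≠ pts H := by
      rintro rfl
      exact hTh (mem_hyp.2 ⟨H, hHd, rfl⟩)
    rw [cnt_pts]
    refine ((hrys _ _ 𝓑 hB ?_ ?_).2.1 T hT _ hHB hne')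
    · have := th_lt (q := q) (m := 0) (m' := d - 1) (by omega) (by omega)
      omega
    · rw [hcard]
      exact th_lt (by omega) (by omega)
  · -- a subspace is determined by its points
    intro H _ H' _ hHH
    have key : ∀ H H' : Submodule F (Fin (d + 1) → F), pts H = pts H' → H ≤ H' := by
      intro H H' h x hx
      by_cases hx0 : x = 0
      · rw [hx0]; exact H'.zero_mem
      have h3 : Projectivization.mk F x hx0 ∈ pts H := by
        rw [pts, mem_filter, Projectivization.submodule_mk, Submodule.span_singleton_le_iff_mem]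
        exact ⟨mem_univ _, hx⟩
      rw [h, pts, mem_filter, Projectivization.submodule_mk,
        Submodule.span_singleton_le_iff_mem] at h3
      exact h3.2
    exact le_antisymm (key H H' hHH) (key H' H hHH.symm)

end Pool.Agent.N337.SD
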