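import Pool.Agent.N337.SD.Stm

set_option autoImplicit false

/-! SD/GEN: two symmetric designs differ in at least `1 + k / l` blocks (and Ryser's theorem). -/

namespace Pool.Agent.N337.SD

open Finset Module
open scoped Classical LinearAlgebra.Projectivization

namespace Gen

variable {X : Type} [Fintype X]

/-- the indicator function of `b` -/
noncomputable def ind (b : Finset X) (x : X) : ℤ := if x ∈ b then 1 else 0

theorem ind_sq (b : Finset X) (x : X) : ind b x * ind b x = ind b x := by
  unfold ind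
  split_ifs <;> norm_num

theorem card_filter' (T : Finset (Finset X)) (x : X) :
    ((T.filter fun b => x ∈ b).card : ℤ) = ∑ b ∈ T, ind b x := by
  unfold ind
  rw [Finset.card_filter]
  push_cast
  rfl

theorem card_filter2 (T : Finset (Finset X)) (x y : X) :
    ((T.filter fun b => x ∈ b ∧ y ∈ b).card : ℤ) = ∑ b ∈ T, ind b x * ind b y := by
  rw [Finset.card_filter]
  push_cast
  refine Finset.sum_congr rfl fun b _ => ?_
  unfold ind
  by_cases h1 : x ∈ b <;> by_cases h2 : y ∈ b <;> simp [h1, h2]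

theorem card_inter' (b c : Finset X) : ((b ∩ c).card : ℤ) = ∑ x, ind b x * ind c x := by
  have h1 : (b ∩ c) = univ.filter fun x => x ∈ b ∧ x ∈ c := by
    ext x
    simp
  rw [h1, Finset.card_filter]
  push_cast
  refine Finset.sum_congr rfl fun x _ => ?_
  unfold ind
  by_cases h1 : x ∈ b <;> by_cases h2 : x ∈ c <;> simp [h1, h2]

theorem card' (b : Finset X) : (b.card : ℤ) = ∑ x, ind b x := by
  have := card_inter' b b
  rw [Finset.inter_self] at this
  rw [this]
  exact Finset.sum_congr rfl fun x _ => ind_sq b x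

/-- the number of blocks in `T` containing `x` -/
noncomputable def dg (T : Finset (Finset X)) (x : X) : ℤ := ∑ b ∈ T, ind b x

/-- the number of blocks in `T` containing `x` and `y` -/
noncomputable def pr (T : Finset (Finset X)) (x y : X) : ℤ := ∑ b ∈ T, ind b x * ind b y

theorem pr_self (T : Finset (Finset X)) (x : X) : pr T x x = dg T x := by
  unfold pr dg
  exact Finset.sum_congr rfl fun b _ => ind_sq b x

theorem sum_dg (T : Finset (Finset X)) : ∑ x, dg T x = ∑ b ∈ T, (b.card : ℤ) := by
  unfold dg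
  rw [Finset.sum_comm]
  exact Finset.sum_congr rfl fun b _ => (card' b).symm

theorem sum_dg_sq (T : Finset (Finset X)) :
    ∑ x, dg T x * dg T x = ∑ b ∈ T, ∑ c ∈ T, ((b ∩ c).card : ℤ) := by
  unfold dg
  have h1 : ∀ x, (∑ b ∈ T, ind b x) * (∑ b ∈ T, ind b x) = ∑ b ∈ T, ∑ c ∈ T, ind b x * ind c x :=
    fun x => Finset.sum_mul_sum _ _ _ _
  rw [Finset.sum_congr rfl fun x _ => h1 x, Finset.sum_comm]
  refine Finset.sum_congr rfl fun b _ => ?_
  rw [Finset.sum_comm]
  exact Finset.sum_congr rfl fun c _ => (card_inter' b c).symm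

/-- first moment of the intersections with `b` -/
theorem sum_inter (T : Finset (Finset X)) (b : Finset X) :
    ∑ c ∈ T, ((b ∩ c).card : ℤ) = ∑ x, ind b x * dg T x := by
  unfold dg
  simp only [Finset.mul_sum]
  rw [Finset.sum_comm]
  exact Finset.sum_congr rfl fun c _ => card_inter' b c

/-- second moment of the intersections with `b` -/
theorem sum_inter_sq (T : Finset (Finset X)) (b : Finset X) :
    ∑ c ∈ T, ((b ∩ c).card : ℤ) * ((b ∩ c).card : ℤ) =
      ∑ x, ∑ y, ind b x * ind b y * pr T x y := by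
  unfold pr
  have h1 : ∀ c, ((b ∩ c).card : ℤ) * ((b ∩ c).card : ℤ) =
      ∑ x, ∑ y, ind b x * ind b y * (ind c x * ind c y) := by
    intro c
    rw [card_inter', Finset.sum_mul_sum]
    refine Finset.sum_congr rfl fun x _ => Finset.sum_congr rfl fun y _ => ?_
    ring
  rw [Finset.sum_congr rfl fun c _ => h1 c, Finset.sum_comm]
  refine Finset.sum_congr rfl fun x _ => ?_
  rw [Finset.sum_comm]
  refine Finset.sum_congr rfl fun y _ => ?_
  rw [Finset.mul_sum]

/-- row sums of the pairs -/
theorem sum_pr (T : Finset (Finset X)) (x : X) :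
    ∑ y, pr T x y = ∑ b ∈ T, ind b x * (b.card : ℤ) := by
  unfold pr
  rw [Finset.sum_comm]
  refine Finset.sum_congr rfl fun b _ => ?_
  rw [card', Finset.mul_sum]

variable {k l : ℕ} {𝓑 : Finset (Finset X)}

theorem pr_eq (h : IsSymm k l 𝓑) {x y : X} (hxy : x ≠ y) : pr 𝓑 x y = l := by
  unfold pr
  rw [← card_filter2, h.pair x y hxy]

/-- `r_x (k - 1) = l (v - 1)` -/
theorem point (h : IsSymm k l 𝓑) (x : X) :
    dg 𝓑 x * ((k : ℤ) - 1) = l * ((Fintype.card X : ℤ) - 1) := by
  have h1 := sum_pr 𝓑 x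
  have h2 : ∑ b ∈ 𝓑, ind b x * (b.card : ℤ) = dg 𝓑 x * k := by
    unfold dg
    rw [Finset.sum_mul]
    exact Finset.sum_congr rfl fun b hb => by rw [h.size b hb]
  have h3 : ∑ y, pr 𝓑 x y = dg 𝓑 x + l * ((Fintype.card X : ℤ) - 1) := by
    rw [← Finset.add_sum_erase _ _ (Finset.mem_univ x), pr_self]
    congr 1
    rw [Finset.sum_congr rfl fun y hy => pr_eq h (Finset.ne_of_mem_erase hy).symm, Finset.sum_const,
      Finset.card_erase_of_mem (Finset.mem_univ x), Finset.card_univ, nsmul_eq_mul]
    have h4 : 1 ≤ Fintype.card X := Fintype.card_pos_iff.2 ⟨x⟩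
    push_cast [Nat.cast_sub h4]
    ring
  rw [h2, h3] at h1
  linarith

end Gen

open Gen

theorem ryser : StRyser := by
  intro X _ k l 𝓑 h hl hk
  have hX : 1 ≤ Fintype.card X := by omega
  obtain ⟨v, hv⟩ : ∃ v : ℤ, v = (Fintype.card X : ℤ) := ⟨_, rfl⟩
  by_cases h1 : Fintype.card X = 1
  · have hk0 : k = 0 := by omega
    subst hk0
    refine ⟨fun x => ?_, fun b hb c hc hbc => ?_, ?_⟩
    · rw [Finset.card_eq_zero, Finset.filter_eq_empty_iff]
      intro b hb hx
      have := h.size b hb
      rw [Finset.card_eq_zero] at this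
      rw [this] at hx
      exact absurd hx (Finset.notMem_empty x)
    · have h2 := h.card_blocks
      rw [h1, Finset.card_eq_one] at h2
      obtain ⟨a, ha⟩ := h2
      rw [ha, Finset.mem_singleton] at hb hc
      exact absurd (hb.trans hc.symm) hbc
    · rw [h1]; simp
  · have hv2 : 2 ≤ v := by
      rw [hv]
      have : 2 ≤ Fintype.card X := by omega
      exact_mod_cast this
    have hl1 : (1:ℤ) ≤ l := by exact_mod_cast hl
    obtain ⟨x₀⟩ : Nonempty X := Fintype.card_pos_iff.1 hX
    have hdg0 : ∀ x, 0 ≤ dg 𝓑 x := by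
      intro x
      unfold dg
      rw [← card_filter']
      positivity
    have hk2 : (2:ℤ) ≤ k := by
      by_contra hcon
      have h2 : (k:ℤ) - 1 ≤ 0 := by linarith
      have h3 := point h x₀
      rw [← hv] at h3
      have h4 : 1 ≤ (l:ℤ) * (v - 1) := by nlinarith
      have h5 := mul_nonpos_of_nonneg_of_nonpos (hdg0 x₀) h2
      linarith
    -- the degrees
    have hsum : ∑ x, dg 𝓑 x = v * k := by
      rw [sum_dg, Finset.sum_congr rfl fun b hb => by rw [h.size b hb], Finset.sum_const,
        h.card_blocks, nsmul_eq_mul, hv]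
    have hconst : ∀ x, dg 𝓑 x = dg 𝓑 x₀ := by
      intro x
      have h2 := point h x
      have h3 := point h x₀
      have h4 : (k:ℤ) - 1 ≠ 0 := by linarith
      exact mul_right_cancel₀ h4 (h2.trans h3.symm)
    have hdg : ∀ x, dg 𝓑 x = k := by
      intro x
      rw [Finset.sum_congr rfl fun x _ => hconst x, Finset.sum_const, Finset.card_univ,
        nsmul_eq_mul, ← hv] at hsum
      rw [hconst x]
      exact mul_left_cancel₀ (by linarith) hsum
    have hkl : (l:ℤ) * (v - 1) = k * (k - 1) := by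
      have := point h x₀
      rw [hdg, ← hv] at this
      linarith
    refine ⟨fun x => ?_, fun b hb c hc hbc => ?_, ?_⟩
    · have := hdg x
      unfold dg at this
      rw [← card_filter'] at this
      exact_mod_cast this
    · have s1 : ∑ c ∈ 𝓑, ((b ∩ c).card : ℤ) = k * k := by
        rw [sum_inter, Finset.sum_congr rfl fun x _ => by rw [hdg x], ← Finset.sum_mul, ← card',
          h.size b hb]
      have s2 : ∑ c ∈ 𝓑, ((b ∩ c).card : ℤ) * ((b ∩ c).card : ℤ) = k * k + k * (k - 1) * l := by
        rw [sum_inter_sq]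
        have e1 : ∀ x, ∑ y, ind b x * ind b y * pr 𝓑 x y = ind b x * (k + (k - 1) * l) := by
          intro x
          rw [← Finset.add_sum_erase _ _ (Finset.mem_univ x), pr_self, hdg, ind_sq]
          have e2 : ∑ y ∈ univ.erase x, ind b x * ind b y * pr 𝓑 x y =
              ∑ y ∈ univ.erase x, ind b x * l * ind b y := by
            refine Finset.sum_congr rfl fun y hy => ?_
            rw [pr_eq h (Finset.ne_of_mem_erase hy).symm]
            ring
          have e3 : ∑ y ∈ univ.erase x, ind b y = k - ind b x := by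
            have := Finset.add_sum_erase univ (ind b) (Finset.mem_univ x)
            rw [← card', h.size b hb] at this
            linarith
          rw [e2, ← Finset.mul_sum, e3]
          have e4 := ind_sq b x
          linear_combination (-(l:ℤ)) * e4
        rw [Finset.sum_congr rfl fun x _ => e1 x, ← Finset.sum_mul, ← card', h.size b hb]
        ring
      have t1 : ∑ c ∈ 𝓑.erase b, ((b ∩ c).card : ℤ) = k * k - k := by
        have := Finset.add_sum_erase 𝓑 (fun c => ((b ∩ c).card : ℤ)) hb
        rw [s1, Finset.inter_self, h.size b hb] at this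
        linarith
      have t2 : ∑ c ∈ 𝓑.erase b, ((b ∩ c).card : ℤ) * ((b ∩ c).card : ℤ) = k * (k - 1) * l := by
        have := Finset.add_sum_erase 𝓑 (fun c => ((b ∩ c).card : ℤ) * ((b ∩ c).card : ℤ)) hb
        rw [s2, Finset.inter_self, h.size b hb] at this
        linarith
      have t0 : ((𝓑.erase b).card : ℤ) = v - 1 := by
        rw [Finset.card_erase_of_mem hb, h.card_blocks, hv]
        push_cast [Nat.cast_sub hX]
        ring
      have t3 : ∑ c ∈ 𝓑.erase b, (((b ∩ c).card : ℤ) - l) * (((b ∩ c).card : ℤ) - l) = 0 := by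
        have e1 : ∀ c, (((b ∩ c).card : ℤ) - l) * (((b ∩ c).card : ℤ) - l) =
            ((b ∩ c).card : ℤ) * ((b ∩ c).card : ℤ) - 2 * l * ((b ∩ c).card : ℤ) + l * l :=
          fun c => by ring
        rw [Finset.sum_congr rfl fun c _ => e1 c, Finset.sum_add_distrib, Finset.sum_sub_distrib,
          ← Finset.mul_sum, t1, t2, Finset.sum_const, nsmul_eq_mul, t0]
        linear_combination (l:ℤ) * hkl
      rw [Finset.sum_eq_zero_iff_of_nonneg fun c _ => mul_self_nonneg _] at t3
      have t4 := t3 c (Finset.mem_erase.2 ⟨fun h0 => hbc h0.symm, hc⟩)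
      have t5 := mul_self_eq_zero.1 t4
      have t6 : ((b ∩ c).card : ℤ) = l := by linarith
      exact_mod_cast t6
    · rw [hv] at hkl
      have e1 : ((Fintype.card X - 1 : ℕ) : ℤ) = (Fintype.card X : ℤ) - 1 := by
        push_cast [Nat.cast_sub hX]
        ring
      have e2 : ((k - 1 : ℕ) : ℤ) = (k : ℤ) - 1 := by
        have : 1 ≤ k := by
          have : (1:ℤ) ≤ k := by linarith
          exact_mod_cast this
        push_cast [Nat.cast_sub this]
        ring
      have : ((l * (Fintype.card X - 1) : ℕ) : ℤ) = ((k * (k - 1) : ℕ) : ℤ) := by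
        rw [Nat.cast_mul, Nat.cast_mul, e1, e2]
        exact hkl
      exact_mod_cast this

theorem gen : StGen := by
  intro X _ k l 𝓑 𝓑' h h' hl hk hne
  obtain ⟨r1, r2, r3⟩ := ryser k l 𝓑 h hl hk
  obtain ⟨r1', r2', r3'⟩ := ryser k l 𝓑' h' hl hk
  have hcard : 𝓑.card = 𝓑'.card := h.card_blocks.trans h'.card_blocks.symm
  obtain ⟨S, hS⟩ : ∃ S, S = 𝓑 \ 𝓑' := ⟨_, rfl⟩
  obtain ⟨S', hS'⟩ : ∃ S, S = 𝓑' \ 𝓑 := ⟨_, rfl⟩
  have hSB : S ⊆ 𝓑 := by rw [hS]; exact Finset.sdiff_subset
  have hS0 : S.Nonempty := by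
    rw [Finset.nonempty_iff_ne_empty]
    intro h0
    rw [hS, Finset.sdiff_eq_empty_iff_subset] at h0
    exact hne (Finset.eq_of_subset_of_card_le h0 hcard.ge)
  -- splitting
  have hsp : ∀ f : Finset X → ℤ, ∑ b ∈ 𝓑, f b = ∑ b ∈ S, f b + ∑ b ∈ 𝓑 ∩ 𝓑', f b := by
    intro f
    rw [hS, add_comm, ← Finset.sum_union (Finset.disjoint_sdiff_inter 𝓑 𝓑').symm, Finset.union_comm,
      Finset.sdiff_union_inter]
  have hsp' : ∀ f : Finset X → ℤ, ∑ b ∈ 𝓑', f b = ∑ b ∈ S', f b + ∑ b ∈ 𝓑 ∩ 𝓑', f b := by
    intro f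
    rw [hS', Finset.inter_comm 𝓑 𝓑', add_comm,
      ← Finset.sum_union (Finset.disjoint_sdiff_inter 𝓑' 𝓑).symm, Finset.union_comm,
      Finset.sdiff_union_inter]
  have hdg : ∀ x, dg S x = dg S' x := by
    intro x
    have e1 : dg 𝓑 x = k := by unfold dg; rw [← card_filter', r1 x]
    have e2 : dg 𝓑' x = k := by unfold dg; rw [← card_filter', r1' x]
    unfold dg at e1 e2 ⊢
    rw [hsp] at e1
    rw [hsp'] at e2
    linarith
  have hpr : ∀ x y, x ≠ y → pr S x y = pr S' x y := by
    intro x y hxy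
    have e1 : pr 𝓑 x y = l := pr_eq h hxy
    have e2 : pr 𝓑' x y = l := pr_eq h' hxy
    unfold pr at e1 e2 ⊢
    rw [hsp] at e1
    rw [hsp'] at e2
    linarith
  -- the degree is never one
  have hcf : ∀ (T : Finset (Finset X)) (x : X), dg T x = ((T.filter fun b => x ∈ b).card : ℤ) :=
    fun T x => (card_filter' T x).symm
  have hne1 : ∀ x, dg S x ≠ 1 := by
    intro x h1
    have h2 := hdg x
    rw [h1, hcf] at h2
    rw [hcf] at h1
    have h3 : (S.filter fun b => x ∈ b).card = 1 := by exact_mod_cast h1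
    have h4 : (S'.filter fun b => x ∈ b).card = 1 := by exact_mod_cast h2.symm
    obtain ⟨b, hb⟩ := Finset.card_eq_one.1 h3
    obtain ⟨t, ht⟩ := Finset.card_eq_one.1 h4
    have hbm : b ∈ S ∧ x ∈ b := by
      have : b ∈ S.filter fun b => x ∈ b := by rw [hb]; exact Finset.mem_singleton_self b
      exact Finset.mem_filter.1 this
    have htm : t ∈ S' ∧ x ∈ t := by
      have : t ∈ S'.filter fun b => x ∈ b := by rw [ht]; exact Finset.mem_singleton_self t
      exact Finset.mem_filter.1 this
    have hprb : ∀ y, pr S x y = ind b y := by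
      intro y
      unfold pr
      have e1 : ∑ b ∈ S, ind b x * ind b y = ∑ b ∈ S.filter (fun b => x ∈ b), ind b y := by
        rw [Finset.sum_filter]
        refine Finset.sum_congr rfl fun c _ => ?_
        by_cases hx : x ∈ c
        · rw [if_pos hx]; unfold ind; rw [if_pos hx, one_mul]
        · rw [if_neg hx]; unfold ind; rw [if_neg hx, zero_mul]
      rw [e1, hb, Finset.sum_singleton]
    have hprt : ∀ y, pr S' x y = ind t y := by
      intro y
      unfold pr
      have e1 : ∑ b ∈ S', ind b x * ind b y = ∑ b ∈ S'.filter (fun b => x ∈ b), ind b y := by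
        rw [Finset.sum_filter]
        refine Finset.sum_congr rfl fun c _ => ?_
        by_cases hx : x ∈ c
        · rw [if_pos hx]; unfold ind; rw [if_pos hx, one_mul]
        · rw [if_neg hx]; unfold ind; rw [if_neg hx, zero_mul]
      rw [e1, ht, Finset.sum_singleton]
    have hbt : b = t := by
      ext y
      by_cases hxy : x = y
      · subst hxy
        exact ⟨fun _ => htm.2, fun _ => hbm.2⟩
      · have e1 := hpr x y hxy
        rw [hprb, hprt] at e1
        unfold ind at e1
        by_cases h5 : y ∈ b <;> by_cases h6 : y ∈ t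
        · exact ⟨fun _ => h6, fun _ => h5⟩
        · rw [if_pos h5, if_neg h6] at e1; exact absurd e1 one_ne_zero
        · rw [if_neg h5, if_pos h6] at e1; exact absurd e1 zero_ne_one
        · exact ⟨fun h7 => absurd h7 h5, fun h7 => absurd h7 h6⟩
    have h5 := hbm.1
    have h6 := htm.1
    rw [hS, Finset.mem_sdiff] at h5
    rw [hS', Finset.mem_sdiff] at h6
    rw [hbt] at h5
    exact h5.2 h6.1
  -- the moments
  have hm1 : ∑ x, dg S x = S.card * k := by
    rw [sum_dg, Finset.sum_congr rfl fun b hb => by rw [h.size b (hSB hb)], Finset.sum_const,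
      nsmul_eq_mul]
  have hm2 : ∑ x, dg S x * dg S x = S.card * (k + (S.card - 1) * l) := by
    rw [sum_dg_sq]
    have e1 : ∀ b ∈ S, ∑ c ∈ S, ((b ∩ c).card : ℤ) = k + (S.card - 1) * l := by
      intro b hb
      rw [← Finset.add_sum_erase _ _ hb, Finset.inter_self, h.size b (hSB hb)]
      congr 1
      rw [Finset.sum_congr rfl fun c hc => by
        rw [r2 b (hSB hb) c (hSB (Finset.mem_of_mem_erase hc)) (Finset.ne_of_mem_erase hc).symm],
        Finset.sum_const, Finset.card_erase_of_mem hb, nsmul_eq_mul]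
      have : 1 ≤ S.card := Finset.card_pos.2 ⟨b, hb⟩
      push_cast [Nat.cast_sub this]
      ring
    rw [Finset.sum_congr rfl e1, Finset.sum_const, nsmul_eq_mul]
  have hpos : 0 ≤ ∑ x, dg S x * (dg S x - 2) := by
    refine Finset.sum_nonneg fun x _ => ?_
    have e0 : 0 ≤ dg S x := by rw [hcf]; positivity
    have e1 := hne1 x
    by_cases e2 : dg S x = 0
    · rw [e2]; norm_num
    · have e3 : 2 ≤ dg S x := by omega
      exact mul_nonneg e0 (by linarith)
  have h1 : ∑ x, dg S x * (dg S x - 2) = ∑ x, dg S x * dg S x - 2 * ∑ x, dg S x := by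
    rw [Finset.mul_sum, ← Finset.sum_sub_distrib]
    exact Finset.sum_congr rfl fun x _ => by ring
  rw [h1, hm1, hm2] at hpos
  have hs : (0:ℤ) < S.card := by exact_mod_cast Finset.card_pos.2 hS0
  have h2 : 0 ≤ (S.card : ℤ) * ((S.card - 1) * l - k) := by linarith
  have h3 : 0 ≤ ((S.card : ℤ) - 1) * l - k := nonneg_of_mul_nonneg_right h2 hs
  have h4 : (k:ℤ) + l ≤ l * S.card := by linarith
  rw [← hS]
  exact_mod_cast h4

end Pool.Agent.N337.SD
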