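import Pool.Agent.N337.SD.Stm

set_option autoImplicit false
set_option linter.unusedSectionVars false

/-! Project SD, part SD/IND: the induction on the dimension (helper901). -/

namespace Pool.Agent.N337.SD

namespace Ind

open Finset Module
open scoped Classical LinearAlgebra.Projectivization

theorem th_one (q : ℕ) : th q 1 = 1 := by simp [th]

theorem th_two (q : ℕ) : th q 2 = 1 + q := by simp [th, Finset.sum_range_succ]

theorem th_succ (q m : ℕ) : th q (m + 1) = th q m + q ^ m := Finset.sum_range_succ _ _

theorem th_succ' (q m : ℕ) : th q (m + 1) = q * th q m + 1 := by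
  unfold th
  rw [Finset.sum_range_succ', Finset.mul_sum]
  simp [pow_succ, mul_comm]

section gen

variable {F V : Type} [Field F] [Fintype F] [AddCommGroup V] [Module F V] [Finite V]

/-- the subspaces of a subspace -/
theorem sub_image (K : Submodule F V) (j : ℕ) :
    {U : Submodule F V | finrank F U = j ∧ U ≤ K} =
      (fun U' : Submodule F K => U'.map K.subtype) '' {U' | finrank F U' = j} := by
  ext U
  constructor
  · rintro ⟨h1, h2⟩
    have h3 : (U.comap K.subtype).map K.subtype = U := by
      rw [Submodule.map_comap_subtype]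
      exact inf_eq_right.mpr h2
    refine ⟨U.comap K.subtype, ?_, h3⟩
    have h4 := Submodule.finrank_map_subtype_eq K (U.comap K.subtype)
    rw [h3] at h4
    exact h4.symm.trans h1
  · rintro ⟨U', h1, rfl⟩
    exact ⟨(Submodule.finrank_map_subtype_eq K U').trans h1, Submodule.map_subtype_le K U'⟩

theorem map_inj (K : Submodule F V) : Function.Injective (fun U' : Submodule F K => U'.map K.subtype) :=
  Submodule.map_injective_of_injective K.injective_subtype

theorem sub_ncard (K : Submodule F V) (j : ℕ) :
    {U : Submodule F V | finrank F U = j ∧ U ≤ K}.ncard = {U' : Submodule F K | finrank F U' = j}.ncard := by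
  rw [sub_image]
  exact Set.ncard_image_of_injective _ (map_inj K)

/-- the number of points of a space -/
theorem pts_top : {p : Submodule F V | finrank F p = 1}.ncard = th (Fintype.card F) (finrank F V) := by
  have h1 : {p : Submodule F V | finrank F p = 1} = (fun x : ℙ F V => x.submodule) '' Set.univ := by
    ext p
    constructor
    · intro hp
      exact ⟨Projectivization.mk'' p hp, trivial, Projectivization.submodule_mk'' p hp⟩
    · rintro ⟨x, -, rfl⟩
      exact x.finrank_submodule
  rw [h1, Set.ncard_image_of_injective _ Projectivization.submodule_injective, Set.ncard_univ,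
    Projectivization.card_of_finrank F V rfl, Nat.card_eq_fintype_card]
  rfl

/-- the number of points of a subspace -/
theorem pts (U : Submodule F V) :
    {p : Submodule F V | finrank F p = 1 ∧ p ≤ U}.ncard = th (Fintype.card F) (finrank F U) := by
  rw [sub_ncard]
  exact pts_top

/-- the number of hyperplanes that contain a subspace -/
theorem hyps (W : Submodule F V) (n : ℕ) (hn : finrank F V = n + 1) :
    {H : Submodule F V | finrank F H = n ∧ W ≤ H}.ncard = th (Fintype.card F) (n + 1 - finrank F W) := by
  have hfin : Finite (Dual F V) := Finite.of_injective (fun f : Dual F V => (f : V → F)) DFunLike.coe_injective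
  have h2 : ∀ H : Submodule F V, finrank F H + finrank F H.dualAnnihilator = n + 1 := fun H => by
    rw [← hn]
    exact Subspace.finrank_add_finrank_dualAnnihilator_eq H
  have h1 : {p : Submodule F (Dual F V) | finrank F p = 1 ∧ p ≤ W.dualAnnihilator} =
      (fun H : Submodule F V => H.dualAnnihilator) '' {H : Submodule F V | finrank F H = n ∧ W ≤ H} := by
    ext p
    constructor
    · rintro ⟨h3, h4⟩
      obtain ⟨H, hH⟩ := (Subspace.orderIsoFiniteDimensional (K := F) (V := V)).surjective (OrderDual.toDual p)
      have hH' : H.dualAnnihilator = p := congrArg OrderDual.ofDual hH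
      refine ⟨H, ⟨?_, ?_⟩, hH'⟩
      · have := h2 H
        rw [hH', h3] at this
        omega
      · rw [← hH'] at h4
        exact Subspace.dualAnnihilator_le_dualAnnihilator_iff.mp h4
    · rintro ⟨H, ⟨h3, h4⟩, rfl⟩
      refine ⟨?_, Subspace.dualAnnihilator_le_dualAnnihilator_iff.mpr h4⟩
      show finrank F H.dualAnnihilator = 1
      have := h2 H
      omega
  have hinj : Function.Injective (fun H : Submodule F V => H.dualAnnihilator) := by
    intro H K h
    exact (Subspace.orderIsoFiniteDimensional (K := F) (V := V)).injective (congrArg OrderDual.toDual h)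
  have h3 := pts (F := F) W.dualAnnihilator
  rw [h1, Set.ncard_image_of_injective _ hinj] at h3
  rw [h3]
  congr 1
  have := h2 W
  omega

/-- the hyperplanes that contain a subspace -/
noncomputable def hs (n : ℕ) (U : Submodule F V) : Finset (Submodule F V) :=
  (Set.toFinite {H : Submodule F V | finrank F H = n ∧ U ≤ H}).toFinset

theorem mem_hs {n : ℕ} {U H : Submodule F V} : H ∈ hs n U ↔ finrank F H = n ∧ U ≤ H := by
  simp [hs]

theorem card_hs (n : ℕ) (hn : finrank F V = n + 1) (U : Submodule F V) :
    (hs n U).card = th (Fintype.card F) (n + 1 - finrank F U) := by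
  rw [← hyps U n hn, hs, Set.ncard_eq_toFinset_card]

theorem pt_sup {U p : Submodule F V} (hp : finrank F p = 1) (h : ¬ p ≤ U) :
    finrank F (U ⊔ p : Submodule F V) = finrank F U + 1 := by
  have h1 := Submodule.finrank_sup_add_finrank_inf_eq U p
  have h2 : finrank F (U ⊓ p : Submodule F V) < finrank F p := by
    apply Submodule.finrank_lt_finrank_of_lt
    refine lt_of_le_of_ne inf_le_right fun h3 => h ?_
    rw [← h3]
    exact inf_le_left
  omega

/-- double counting -/
theorem dbl (T : Finset (Submodule F V)) (s : Finset (Submodule F V)) :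
    ∑ H ∈ s, cnt T H = ∑ p ∈ T, (s.filter fun H => p ≤ H).card := by
  unfold cnt
  simp only [Finset.card_filter]
  exact Finset.sum_comm

theorem filter_hs (n : ℕ) (U p : Submodule F V) : (hs n U).filter (fun H => p ≤ H) = hs n (U ⊔ p) := by
  ext H
  simp only [Finset.mem_filter, mem_hs, sup_le_iff, and_assoc]

/-- (1) the sum over the hyperplanes that contain a subspace of codimension two -/
theorem sum1 (n : ℕ) (hn : finrank F V = n + 1 + 1) (T : Finset (Submodule F V))
    (hT : ∀ p ∈ T, finrank F p = 1) (U : Submodule F V) (hU : finrank F U = n) :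
    ∑ H ∈ hs (n + 1) U, cnt T H = T.card + Fintype.card F * cnt T U := by
  rw [dbl]
  have h1 : ∀ p ∈ T, ((hs (n + 1) U).filter fun H => p ≤ H).card = 1 + if p ≤ U then Fintype.card F else 0 := by
    intro p hp
    rw [filter_hs, card_hs (n + 1) hn]
    by_cases h : p ≤ U
    · rw [if_pos h, sup_eq_left.mpr h, hU, show n + 1 + 1 - n = 2 by omega, th_two]
    · rw [if_neg h, pt_sup (hT p hp) h, hU, show n + 1 + 1 - (n + 1) = 1 by omega, th_one]
  rw [Finset.sum_congr rfl h1, Finset.sum_add_distrib, Finset.sum_ite, Finset.sum_const_zero, add_zero,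
    Finset.sum_const, Finset.sum_const, smul_eq_mul, smul_eq_mul, mul_one, mul_comm, cnt]

/-- two different hyperplanes with a common subspace of codimension two -/
theorem inf_eq {n : ℕ} {H K U : Submodule F V} (hH : finrank F H = n + 1) (hK : finrank F K = n + 1)
    (hne : H ≠ K) (hU : finrank F U = n) (h1 : U ≤ H) (h2 : U ≤ K) : H ⊓ K = U := by
  symm
  apply Submodule.eq_of_le_of_finrank_le (le_inf h1 h2)
  have h3 : finrank F (H ⊓ K : Submodule F V) < finrank F H := by
    apply Submodule.finrank_lt_finrank_of_lt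
    refine lt_of_le_of_ne inf_le_left fun h => hne ?_
    exact Submodule.eq_of_le_of_finrank_le (inf_eq_left.mp h) (by omega)
  omega

/-- the intersection of two hyperplanes of `K` -/
theorem inf_rank {n : ℕ} {K W U : Submodule F V} (hK : finrank F K = n + 1) (hW : finrank F W = n)
    (hU : finrank F U = n) (h1 : W ≤ K) (h2 : U ≤ K) (hne : W ≠ U) :
    finrank F (W ⊓ U : Submodule F V) + 1 = n := by
  have h3 := Submodule.finrank_sup_add_finrank_inf_eq W U
  have h4 : finrank F (W ⊔ U : Submodule F V) ≤ finrank F K := Submodule.finrank_mono (sup_le h1 h2)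
  have h5 : finrank F W < finrank F (W ⊔ U : Submodule F V) := by
    apply Submodule.finrank_lt_finrank_of_lt
    refine lt_of_le_of_ne le_sup_left fun h => hne ?_
    symm
    exact Submodule.eq_of_le_of_finrank_le (sup_eq_left.mp h.symm) (by omega)
  omega

end gen

end Ind

open Finset Module Ind
open scoped Classical LinearAlgebra.Projectivization

theorem ind : StInd := by
  intro m hm hL F V _ _ _ _ _ hV T hT hTc hTn
  obtain ⟨q, hq⟩ : ∃ q, q = Fintype.card F := ⟨_, rfl⟩
  have hq2 : 2 ≤ q := by rw [hq]; exact Fintype.one_lt_card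
  obtain ⟨n, rfl⟩ : ∃ n, m = n + 1 := ⟨m - 1, by omega⟩
  simp only [add_tsub_cancel_right] at *
  rw [← hq] at hTc ⊢
  -- the numbers
  obtain ⟨k, hk⟩ : ∃ k, k = th q (n + 1 + 1) := ⟨_, rfl⟩
  obtain ⟨l, hl⟩ : ∃ l, l = th q (n + 1) := ⟨_, rfl⟩
  obtain ⟨r, hr⟩ : ∃ r, r = th q n := ⟨_, rfl⟩
  have e1 : k = q * l + 1 := by rw [hk, hl]; exact th_succ' _ _
  have e2 : l = q * r + 1 := by rw [hl, hr]; exact th_succ' _ _
  have e3 : l < k := by
    rw [hk, hl, th_succ q (n + 1)]
    have : 0 < q ^ (n + 1) := by positivity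
    omega
  rw [← hk] at hTc
  rw [← hl]
  have hs1 : ∀ U : Submodule F V, finrank F U = n + 1 → ∑ H ∈ hs (n + 1 + 1) U, cnt T H = k + q * cnt T U := by
    intro U hU
    rw [sum1 (n + 1) hV T hT U hU, hTc, hq]
  have hcard2 : ∀ U : Submodule F V, finrank F U = n + 1 → (hs (n + 1 + 1) U).card = 1 + q := by
    intro U hU
    rw [card_hs (n + 1 + 1) hV, hU, show n + 1 + 1 + 1 - (n + 1) = 2 by omega, th_two, hq]
  -- (2) there is a bad hyperplane
  have hbad : ∃ H : Submodule F V, finrank F H = n + 1 + 1 ∧ cnt T H ≠ l := by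
    by_contra hcon
    push Not at hcon
    have h1 : ∑ H ∈ hs (n + 1 + 1) (⊥ : Submodule F V), cnt T H = ∑ H ∈ hs (n + 1 + 1) (⊥ : Submodule F V), l :=
      Finset.sum_congr rfl fun H hH => hcon H (mem_hs.mp hH).1
    rw [dbl, Finset.sum_const, smul_eq_mul, card_hs (n + 1 + 1) hV, finrank_bot, tsub_zero, ← hq, th_succ', ← hk] at h1
    have h2 : ∀ p ∈ T, ((hs (n + 1 + 1) (⊥ : Submodule F V)).filter fun H => p ≤ H).card = k := by
      intro p hp
      rw [filter_hs, bot_sup_eq, card_hs (n + 1 + 1) hV, hT p hp, show n + 1 + 1 + 1 - 1 = n + 1 + 1 by omega,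
        ← hq, ← hk]
    rw [Finset.sum_congr rfl h2, Finset.sum_const, smul_eq_mul, hTc] at h1
    have h3 : k * k = k * (q * l) + l := by rw [h1]; ring
    have h4 : k * k = k * (q * l) + k := by
      calc k * k = k * (q * l + 1) := by rw [← e1]
        _ = k * (q * l) + k := by ring
    omega
  by_cases hA : ∃ K : Submodule F V, finrank F K = n + 1 + 1 ∧ cnt T K = l ∧
      ¬ ∃ W : Submodule F V, finrank F W = n + 1 ∧ W ≤ K ∧ ∀ p ∈ T, p ≤ K → p ≤ W
  · -- case A
    obtain ⟨K, hK1, hK2, hK3⟩ := hA
    obtain ⟨T', hT'⟩ : ∃ T' : Finset (Submodule F K), ∀ p, p ∈ T' ↔ p.map K.subtype ∈ T := by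
      refine ⟨T.preimage (fun p : Submodule F K => p.map K.subtype) (map_inj K).injOn, fun p => ?_⟩
      simp
    -- the counts
    have hc : ∀ U' : Submodule F K, cnt T' U' = cnt T (U'.map K.subtype) := by
      intro U'
      unfold cnt
      refine Finset.card_bij (fun p _ => p.map K.subtype) ?_ ?_ ?_
      · intro p hp
        rw [Finset.mem_filter] at hp ⊢
        exact ⟨(hT' p).mp hp.1, Submodule.map_mono hp.2⟩
      · intro p _ p' _ h
        exact map_inj K h
      · intro p hp
        rw [Finset.mem_filter] at hp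
        have hpK : p ≤ K := hp.2.trans (Submodule.map_subtype_le K U')
        have h3 : (p.comap K.subtype).map K.subtype = p := by
          rw [Submodule.map_comap_subtype]
          exact inf_eq_right.mpr hpK
        refine ⟨p.comap K.subtype, ?_, h3⟩
        rw [Finset.mem_filter]
        refine ⟨(hT' _).mpr (by rw [h3]; exact hp.1), ?_⟩
        have h4 := Submodule.comap_mono (f := K.subtype) hp.2
        rwa [Submodule.comap_map_eq_of_injective K.injective_subtype] at h4
    have hT'c : T'.card = l := by
      have h1 := hc ⊤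
      rw [Submodule.map_subtype_top, hK2] at h1
      rw [← h1, cnt]
      congr 1
      symm
      exact Finset.filter_true_of_mem fun p _ => le_top
    have hL' := hL (F := F) (V := K) hK1 T' (fun p hp => by
      have h1 := hT _ ((hT' p).mp hp)
      rwa [Submodule.finrank_map_subtype_eq] at h1) (by rw [hT'c, hl, hq]) (by
      rintro ⟨H, hH1, hH2⟩
      refine hK3 ⟨H.map K.subtype, (Submodule.finrank_map_subtype_eq K H).trans hH1,
        Submodule.map_subtype_le K H, fun p hp hpK => ?_⟩
      have h3 : (p.comap K.subtype).map K.subtype = p := by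
        rw [Submodule.map_comap_subtype]
        exact inf_eq_right.mpr hpK
      rw [← h3]
      exact Submodule.map_mono (hH2 _ ((hT' _).mpr (by rw [h3]; exact hp))))
    rw [← hq, add_tsub_cancel_right, ← hr] at hL'
    -- a bad hyperplane for each subspace
    have hex : ∀ U' : Submodule F K, finrank F U' = n + 1 ∧ cnt T' U' ≠ r →
        ∃ H : Submodule F V, (finrank F H = n + 1 + 1 ∧ cnt T H ≠ l) ∧ H ⊓ K = U'.map K.subtype := by
      rintro U' ⟨h1, h2⟩
      have hU : finrank F (U'.map K.subtype) = n + 1 := (Submodule.finrank_map_subtype_eq K U').trans h1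
      have h3 : ∃ H ∈ hs (n + 1 + 1) (U'.map K.subtype), cnt T H ≠ l := by
        by_contra hcon
        push Not at hcon
        have h4 := hs1 _ hU
        rw [Finset.sum_congr rfl hcon, Finset.sum_const, smul_eq_mul, hcard2 _ hU, ← hc] at h4
        apply h2
        have h5 : q * cnt T' U' = q * r := by
          have : (1 + q) * l = l + q * l := by ring
          omega
        exact Nat.eq_of_mul_eq_mul_left (by omega) h5
      obtain ⟨H, hH, hH'⟩ := h3
      rw [mem_hs] at hH
      exact ⟨H, ⟨hH.1, hH'⟩, inf_eq hH.1 hK1 (fun h => hH' (h ▸ hK2)) hU hH.2 (Submodule.map_subtype_le K U')⟩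
    choose! Φ hΦ1 hΦ2 using hex
    refine hL'.trans ?_
    refine Set.ncard_le_ncard_of_injOn Φ (fun U' hU' => hΦ1 U' hU') (fun U' hU' U'' hU'' h => ?_) (Set.toFinite _)
    apply map_inj K
    show U'.map K.subtype = U''.map K.subtype
    rw [← hΦ2 U' hU', ← hΦ2 U'' hU'', h]
  · -- case B
    push Not at hA
    by_contra hlt
    rw [not_le] at hlt
    obtain ⟨H0, hH1, hH2⟩ := hbad
    have hH3 : cnt T H0 ≠ k := by
      intro h
      apply hTn
      refine ⟨H0, hH1, fun p hp => ?_⟩
      rw [cnt, ← hTc, Finset.card_filter_eq_iff] at h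
      exact h p hp
    -- a subspace of `H0`
    have hU : ∃ U : Submodule F V, finrank F U = n + 1 ∧ U ≤ H0 ∧
        ∀ H : Submodule F V, finrank F H = n + 1 + 1 → U ≤ H → H ≠ H0 → cnt T H = l := by
      by_contra hcon
      push Not at hcon
      have h1 : {U : Submodule F V | finrank F U = n + 1 ∧ U ≤ H0} ⊆
          (fun H => H ⊓ H0) '' {H : Submodule F V | finrank F H = n + 1 + 1 ∧ cnt T H ≠ l} := by
        rintro U ⟨h2, h3⟩
        obtain ⟨H, h4, h5, h6, h7⟩ := hcon U h2 h3
        exact ⟨H, ⟨h4, h7⟩, inf_eq h4 hH1 h6 h2 h5 h3⟩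
      have h2 := (Set.ncard_le_ncard h1 (Set.toFinite _)).trans (Set.ncard_image_le (Set.toFinite _))
      have h3 : {U : Submodule F V | finrank F U = n + 1 ∧ U ≤ H0}.ncard = k := by
        rw [sub_ncard]
        have h4 := hyps (F := F) (V := H0) ⊥ (n + 1) hH1
        rw [finrank_bot, tsub_zero, ← hq, ← hk] at h4
        rw [← h4]
        congr 1
        ext U'
        simp
      rw [h3] at h2
      have h5 : 1 ≤ r := by
        rw [hr]
        obtain ⟨n', rfl⟩ : ∃ n', n = n' + 1 := ⟨n - 1, by omega⟩
        rw [th_succ']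
        omega
      have h6 : 2 * q ≤ k := by
        rw [e1, e2]
        have : q * (q * r + 1) ≥ q * (1 * 1 + 1) := Nat.mul_le_mul_left q (by nlinarith)
        omega
      omega
    obtain ⟨U, hU1, hU2, hU3⟩ := hU
    have hH0U : H0 ∈ hs (n + 1 + 1) U := mem_hs.mpr ⟨hH1, hU2⟩
    -- the sum
    have h1 := hs1 U hU1
    rw [← Finset.add_sum_erase _ _ hH0U] at h1
    have h2 : ∀ H ∈ (hs (n + 1 + 1) U).erase H0, cnt T H = l := by
      intro H hH
      rw [Finset.mem_erase, mem_hs] at hH
      exact hU3 H hH.2.1 hH.2.2 hH.1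
    have h3 : ((hs (n + 1 + 1) U).erase H0).card = q := by
      rw [Finset.card_erase_of_mem hH0U, hcard2 U hU1]
      omega
    rw [Finset.sum_congr rfl h2, Finset.sum_const, smul_eq_mul, h3] at h1
    -- another hyperplane
    obtain ⟨K, hK⟩ : ((hs (n + 1 + 1) U).erase H0).Nonempty := by
      rw [← Finset.card_pos, h3]
      omega
    have hKc := h2 K hK
    rw [Finset.mem_erase, mem_hs] at hK
    obtain ⟨-, hK1, hK2⟩ := hK
    obtain ⟨W, hW1, hW2, hW3⟩ := hA K hK1 hKc
    -- the points in `K` are the points of `W`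
    have h4 : (T.filter fun p => p ≤ K : Finset (Submodule F V)) =
        (Set.toFinite {p : Submodule F V | finrank F p = 1 ∧ p ≤ W}).toFinset := by
      apply Finset.eq_of_subset_of_card_le
      · intro p hp
        rw [Finset.mem_filter] at hp
        rw [Set.Finite.mem_toFinset]
        exact ⟨hT p hp.1, hW3 p hp.1 hp.2⟩
      · rw [← Set.ncard_eq_toFinset_card, pts, hW1, ← hq, ← hl, ← hKc, cnt]
    have h5 : cnt T U = th q (finrank F (W ⊓ U : Submodule F V)) := by
      rw [hq, ← pts, Set.ncard_eq_toFinset_card _ (Set.toFinite _), cnt]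
      congr 1
      ext p
      rw [Finset.mem_filter, Set.Finite.mem_toFinset]
      constructor
      · rintro ⟨hp, hpU⟩
        exact ⟨hT p hp, le_inf (hW3 p hp (hpU.trans hK2)) hpU⟩
      · rintro ⟨hp, hpW⟩
        have h6 : p ∈ (T.filter fun p => p ≤ K : Finset (Submodule F V)) := by
          rw [h4, Set.Finite.mem_toFinset]
          exact ⟨hp, hpW.trans inf_le_left⟩
        rw [Finset.mem_filter] at h6
        exact ⟨h6.1, hpW.trans inf_le_right⟩
    by_cases hWU : W = U
    · rw [hWU, inf_idem, hU1, ← hl] at h5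
      rw [h5] at h1
      exact hH3 (by omega)
    · have h6 := inf_rank hK1 hW1 hU1 hW2 hK2 hWU
      have h7 : finrank F (W ⊓ U : Submodule F V) = n := by omega
      rw [h7, ← hr] at h5
      rw [h5] at h1
      apply hH2
      omega

end Pool.Agent.N337.SD
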