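import Pool.Agent.N337.SD.Stm

set_option autoImplicit false
set_option linter.unusedSectionVars false
set_option linter.unusedVariables false
set_option maxHeartbeats 400000

/-!
# The hyperplanes of a projective space are a symmetric design (helper413, project SD of helper337)

The counting lemmas `card_sub`, `finrank_WW`, `count` are those of `Pool/Agent/N337/MJ/PGex.lean`
(helper322).
-/

namespace Pool.Agent.N337.SD

open Finset
open scoped Classical

namespace PG_

open scoped LinearAlgebra.Projectivization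
open Projectivization

variable {F : Type} [Field F] [Finite F] {N : ℕ}

/-- number of points of a subspace -/
theorem card_sub (W : Submodule F (Fin N → F)) {m : ℕ} (h : Module.finrank F W = m) :
    Nat.card {x : ℙ F (Fin N → F) // x.rep ∈ W} = th (Nat.card F) m := by
  unfold th
  rw [← card_of_finrank F W h]
  symm
  have hmem : ∀ y : ℙ F W, (Projectivization.map W.subtype W.injective_subtype y).rep ∈ W := by
    intro y
    induction y using Projectivization.ind with
    | h v hv =>
      rw [Projectivization.map_mk]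
      obtain ⟨a, ha⟩ := exists_smul_eq_mk_rep F (W.subtype v)
        (fun hcon => hv (W.injective_subtype (by rw [hcon, map_zero])))
      rw [← ha]
      exact W.smul_mem _ v.2
  refine Nat.card_congr (Equiv.ofBijective
    (fun y => ⟨Projectivization.map W.subtype W.injective_subtype y, hmem y⟩) ⟨?_, ?_⟩)
  · intro y z hyz
    have h1 := congrArg Subtype.val hyz
    exact Projectivization.map_injective W.subtype W.injective_subtype h1
  · rintro ⟨x, hx⟩
    refine ⟨mk F (⟨x.rep, hx⟩ : W) (fun hcon => x.rep_nonzero (congrArg Subtype.val hcon)), ?_⟩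
    apply Subtype.ext
    show Projectivization.map W.subtype W.injective_subtype (mk F (⟨x.rep, hx⟩ : W)
      (fun hcon => x.rep_nonzero (congrArg Subtype.val hcon))) = x
    rw [Projectivization.map_mk]
    exact mk_rep x

/-- the orthogonal space -/
noncomputable def WW {k : ℕ} (v : Fin k → Fin N → F) : Submodule F (Fin N → F) :=
  LinearMap.ker (Matrix.mulVecLin (Matrix.of v))

theorem mem_WW {k : ℕ} {v : Fin k → Fin N → F} {x : Fin N → F} :
    x ∈ WW v ↔ ∀ i, v i ⬝ᵥ x = 0 := by
  unfold WW
  rw [LinearMap.mem_ker, Matrix.mulVecLin_apply, funext_iff]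
  rfl

theorem finrank_WW {k : ℕ} {v : Fin k → Fin N → F} (hv : LinearIndependent F v) :
    Module.finrank F (WW v) = N - k := by
  have h1 := LinearMap.finrank_range_add_finrank_ker (Matrix.mulVecLin (Matrix.of v))
  have h2 : (Matrix.of v).rank = Fintype.card (Fin k) :=
    LinearIndependent.rank_matrix (M := Matrix.of v) hv
  unfold Matrix.rank at h2
  rw [h2, Module.finrank_fintype_fun_eq_card, Fintype.card_fin, Fintype.card_fin] at h1
  unfold WW
  omega

/-- number of points orthogonal to independent vectors -/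
theorem count [Fintype (ℙ F (Fin N → F))] {k : ℕ} {v : Fin k → Fin N → F}
    (hv : LinearIndependent F v) :
    ((univ : Finset (ℙ F (Fin N → F))).filter fun x => ∀ i, v i ⬝ᵥ x.rep = 0).card =
      th (Nat.card F) (N - k) := by
  rw [← card_sub (WW v) (finrank_WW hv), Nat.card_eq_fintype_card, Fintype.card_subtype]
  congr 1
  ext x
  simp only [Finset.mem_filter, Finset.mem_univ, true_and, mem_WW]

theorem indep1 (h : ℙ F (Fin N → F)) : LinearIndependent F ![h.rep] := by
  rw [linearIndependent_unique_iff]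
  exact h.rep_nonzero

theorem indep2 {x y : ℙ F (Fin N → F)} (h : x ≠ y) : LinearIndependent F ![x.rep, y.rep] :=
  linearIndependent_pair_iff_ne.2 h

/-- the hyperplanes -/
noncomputable def BB [Fintype (ℙ F (Fin N → F))] (h : ℙ F (Fin N → F)) :
    Finset (ℙ F (Fin N → F)) :=
  univ.filter fun x => h.rep ⬝ᵥ x.rep = 0

theorem mem_BB [Fintype (ℙ F (Fin N → F))] {h x : ℙ F (Fin N → F)} :
    x ∈ BB h ↔ h.rep ⬝ᵥ x.rep = 0 := by
  simp [BB]

theorem mem_BB' [Fintype (ℙ F (Fin N → F))] {h x : ℙ F (Fin N → F)} :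
    x ∈ BB h ↔ x.rep ⬝ᵥ h.rep = 0 := by
  rw [mem_BB, dotProduct_comm]

theorem count1 [Fintype (ℙ F (Fin N → F))] (h : ℙ F (Fin N → F)) :
    ((univ : Finset (ℙ F (Fin N → F))).filter fun x => h.rep ⬝ᵥ x.rep = 0).card =
      th (Nat.card F) (N - 1) := by
  rw [← count (indep1 h)]
  congr 1
  ext x
  simp

theorem count2 [Fintype (ℙ F (Fin N → F))] {h k : ℙ F (Fin N → F)} (hhk : h ≠ k) :
    ((univ : Finset (ℙ F (Fin N → F))).filter fun x => h.rep ⬝ᵥ x.rep = 0 ∧
      k.rep ⬝ᵥ x.rep = 0).card = th (Nat.card F) (N - 2) := by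
  rw [← count (indep2 hhk)]
  congr 1
  ext x
  simp [Fin.forall_fin_two]

theorem th_lt (q m : ℕ) (hq : 1 ≤ q) : th q m < th q (m + 1) := by
  unfold th
  rw [Finset.sum_range_succ]
  have : 0 < q ^ m := pow_pos (by omega) m
  omega

theorem BB_inj [Fintype (ℙ F (Fin N → F))] (hN : 2 ≤ N) :
    Function.Injective (BB : ℙ F (Fin N → F) → _) := by
  intro h k hhk
  by_contra hne
  have h1 : ((univ : Finset (ℙ F (Fin N → F))).filter fun x => h.rep ⬝ᵥ x.rep = 0 ∧
      k.rep ⬝ᵥ x.rep = 0) = univ.filter fun x => h.rep ⬝ᵥ x.rep = 0 := by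
    ext x
    simp only [Finset.mem_filter, Finset.mem_univ, true_and]
    constructor
    · exact fun hx => hx.1
    · intro hx
      refine ⟨hx, ?_⟩
      rw [← mem_BB, ← hhk, mem_BB]
      exact hx
  have h2 := count2 hne
  rw [h1, count1] at h2
  obtain ⟨m, rfl⟩ := Nat.exists_eq_add_of_le hN
  have h3 : 2 + m - 1 = m + 1 := by omega
  have h4 : 2 + m - 2 = m := by omega
  rw [h3, h4] at h2
  have := th_lt (Nat.card F) m Nat.card_pos
  omega

theorem sub_iff (x : ℙ F (Fin N → F)) (H : Submodule F (Fin N → F)) :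
    x.submodule ≤ H ↔ x.rep ∈ H := by
  rw [Projectivization.submodule_eq, Submodule.span_singleton_le_iff_mem]

/-- a hyperplane is the orthogonal space of a vector -/
theorem exists_normal (H : Submodule F (Fin N → F)) (hH : Module.finrank F H + 1 = N) :
    ∃ h : ℙ F (Fin N → F), H = WW ![h.rep] := by
  have hlt : H < ⊤ := by
    rw [lt_top_iff_ne_top]
    rintro rfl
    rw [finrank_top, Module.finrank_fintype_fun_eq_card, Fintype.card_fin] at hH
    omega
  obtain ⟨f, hf, hf2⟩ := H.exists_le_ker_of_lt_top hlt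
  -- the vector of the functional
  let v : Fin N → F := fun i => f (Pi.single i 1)
  have hv : ∀ x, f x = v ⬝ᵥ x := by
    intro x
    have h1 : x = ∑ i, x i • (Pi.single i (1 : F) : Fin N → F) := by
      ext j
      simp [Finset.sum_apply, Pi.single_apply]
    conv_lhs => rw [h1]
    rw [map_sum]
    simp only [map_smul, smul_eq_mul, dotProduct, v]
    exact Finset.sum_congr rfl fun i _ => mul_comm _ _
  have hv0 : v ≠ 0 := by
    intro h0
    apply hf
    apply LinearMap.ext
    intro x
    rw [hv, h0, zero_dotProduct]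
    rfl
  refine ⟨Projectivization.mk F v hv0, ?_⟩
  obtain ⟨a, ha⟩ := exists_smul_eq_mk_rep F v hv0
  have hle : H ≤ WW ![(Projectivization.mk F v hv0).rep] := by
    intro x hx
    rw [mem_WW]
    intro i
    fin_cases i
    change (Projectivization.mk F v hv0).rep ⬝ᵥ x = 0
    rw [← ha]
    have h2 : f x = 0 := hf2 hx
    rw [hv] at h2
    have h3 : (a • v) ⬝ᵥ x = (a : F) * (v ⬝ᵥ x) := by
      rw [← smul_eq_mul, ← smul_dotProduct]
      rfl
    rw [h3, h2, mul_zero]
  refine Submodule.eq_of_le_of_finrank_eq hle ?_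
  rw [finrank_WW (indep1 _)]
  omega

theorem hyp_eq {F : Type} [Field F] [Fintype F] (d : ℕ) :
    hyp F d = univ.image (BB : ℙ F (Fin (d + 1) → F) → _) := by
  ext b
  unfold hyp
  rw [Finset.mem_image, Finset.mem_image]
  constructor
  · rintro ⟨H, hH, rfl⟩
    have hH' : Module.finrank F H = d := (Finset.mem_filter.1 hH).2
    obtain ⟨h, hh⟩ := exists_normal H (by omega)
    refine ⟨h, Finset.mem_univ _, ?_⟩
    ext x
    rw [mem_BB, Finset.mem_filter, sub_iff, hh, mem_WW]
    simp
  · rintro ⟨h, _, rfl⟩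
    refine ⟨WW ![h.rep], ?_, ?_⟩
    · rw [Finset.mem_filter]
      refine ⟨Finset.mem_univ _, ?_⟩
      rw [finrank_WW (indep1 h)]
      omega
    · ext x
      rw [mem_BB, Finset.mem_filter, sub_iff, mem_WW]
      simp

end PG_

open scoped LinearAlgebra.Projectivization in
open PG_ in
/-- SD/PG -/
theorem pg : StPG := by
  intro F _ _ d hd
  have hcard : Fintype.card (ℙ F (Fin (d + 1) → F)) = th (Fintype.card F) (d + 1) := by
    rw [← Nat.card_eq_fintype_card (α := F), ← Nat.card_eq_fintype_card,
      Projectivization.card_of_finrank F (Fin (d + 1) → F) (n := d + 1) (by simp)]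
    rfl
  refine ⟨hcard, ?_, ?_, ?_⟩
  · rw [hyp_eq, Finset.card_image_of_injective _ (BB_inj (by omega)), Finset.card_univ]
  · intro b hb
    rw [hyp_eq, Finset.mem_image] at hb
    obtain ⟨h, _, rfl⟩ := hb
    have h1 := count1 h
    rw [Nat.card_eq_fintype_card] at h1
    exact h1
  · intro x y hxy
    rw [hyp_eq, Finset.filter_image, Finset.card_image_of_injective _ (BB_inj (by omega))]
    simp only [mem_BB']
    have h1 := count2 hxy
    rw [Nat.card_eq_fintype_card] at h1
    have h2 : d + 1 - 2 = d - 1 := by omega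
    rw [h2] at h1
    exact h1

end Pool.Agent.N337.SD
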