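import Pool.Agent.N337.SD.Ind

set_option autoImplicit false
set_option linter.unusedSectionVars false

/-! Project SD, part SD/PL: `q + 1` points of a plane of order `q` which are not on a line
(helper55). -/

namespace Pool.Agent.N337.SD

namespace Pl

open Finset
open scoped Classical

/-- The combinatorial form: at least `2 q` lines do not contain exactly one point of `T`. -/
theorem abs_lem {P L : Type} (inc : P → L → Prop) (q : ℕ) (hq : 2 ≤ q) (T : Finset P)
    (S : Finset L) (hT : T.card = q + 1) (hS : S.card = q * q + q + 1)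
    (hdeg : ∀ t ∈ T, (S.filter fun l => inc t l).card = q + 1)
    (hjoin : ∀ t ∈ T, ∀ u ∈ T, t ≠ u → ∃ l ∈ S, inc t l ∧ inc u l)
    (huniq : ∀ t ∈ T, ∀ u ∈ T, t ≠ u → ∀ l ∈ S, ∀ l' ∈ S, inc t l → inc u l → inc t l' →
      inc u l' → l = l')
    (hnot : ∀ l ∈ S, ∃ t ∈ T, ¬ inc t l) :
    2 * q ≤ (S.filter fun l => (T.filter fun t => inc t l).card ≠ 1).card := by
  obtain ⟨c, hc⟩ : ∃ c : L → ℕ, ∀ l, c l = (T.filter fun t => inc t l).card := ⟨_, fun _ => rfl⟩
  have hset : (S.filter fun l => (T.filter fun t => inc t l).card ≠ 1) =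
      S.filter fun l => c l ≠ 1 := by
    refine Finset.filter_congr fun l _ => ?_
    rw [hc]
  rw [hset]
  obtain ⟨B, hB⟩ : ∃ B, B = S.filter fun l => c l ≠ 1 := ⟨_, rfl⟩
  obtain ⟨s, hs⟩ : ∃ s : P → ℕ, ∀ t, s t = (B.filter fun l => inc t l).card := ⟨_, fun _ => rfl⟩
  rw [← hB]
  -- counting
  have h1 : (S.filter fun l => c l = 1).card + B.card = q * q + q + 1 := by
    rw [hB, ← hS]
    exact Finset.card_filter_add_card_filter_not (s := S) (fun l => c l = 1)
  have dbl : ∀ R : Finset L, ∑ l ∈ R, c l = ∑ t ∈ T, (R.filter fun l => inc t l).card := by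
    intro R
    simp only [hc, Finset.card_filter]
    exact Finset.sum_comm
  have h2 : ∑ l ∈ S, c l = (q + 1) * (q + 1) := by
    rw [dbl, Finset.sum_congr rfl hdeg, Finset.sum_const, hT, smul_eq_mul]
  have h3 : ∑ l ∈ S.filter (fun l => c l = 1), c l = (S.filter fun l => c l = 1).card := by
    rw [Finset.sum_congr rfl (g := fun _ => 1) fun l hl => (Finset.mem_filter.1 hl).2]
    simp
  have h4 : ∑ l ∈ S.filter (fun l => c l = 1), c l + ∑ l ∈ B, c l = ∑ l ∈ S, c l := by
    rw [hB]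
    exact Finset.sum_filter_add_sum_filter_not S (fun l => c l = 1) c
  have h5 : ∑ l ∈ B, c l = ∑ t ∈ T, s t := by
    rw [dbl]
    exact Finset.sum_congr rfl fun t _ => (hs t).symm
  have h6 : B.card + q = ∑ t ∈ T, s t := by
    have : (q + 1) * (q + 1) = q * q + 2 * q + 1 := by ring
    omega
  suffices h7 : 3 * q ≤ ∑ t ∈ T, s t by omega
  -- two points, the lines
  have hcard2 : 1 < T.card := by omega
  obtain ⟨t₀, ht₀, u₀, hu₀, htu₀⟩ := Finset.one_lt_card.1 hcard2
  obtain ⟨l₁, hl₁, hl₁a, hl₁b⟩ := hjoin t₀ ht₀ u₀ hu₀ htu₀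
  have two : ∀ t ∈ T, ∀ u ∈ T, t ≠ u → ∀ l, inc t l → inc u l → 2 ≤ c l := by
    intro t ht u hu htu l h1 h2
    rw [hc, ← Finset.card_pair htu]
    apply Finset.card_le_card
    intro x hx
    rw [Finset.mem_insert, Finset.mem_singleton] at hx
    rw [Finset.mem_filter]
    rcases hx with rfl | rfl
    · exact ⟨ht, h1⟩
    · exact ⟨hu, h2⟩
  obtain ⟨l₀, hl₀, hmax⟩ := Finset.exists_max_image S c ⟨l₁, hl₁⟩
  have ha2 : 2 ≤ c l₀ := (two t₀ ht₀ u₀ hu₀ htu₀ l₁ hl₁a hl₁b).trans (hmax l₁ hl₁)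
  obtain ⟨w, hw, hwl⟩ := hnot l₀ hl₀
  have haq : c l₀ ≤ q := by
    have : c l₀ < T.card := by
      rw [hc]
      apply Finset.card_lt_card
      refine Finset.filter_ssubset.2 ⟨w, hw, hwl⟩
    omega
  have hJ' : ∀ t u, ∃ l, t ∈ T → u ∈ T → t ≠ u → l ∈ S ∧ inc t l ∧ inc u l := by
    intro t u
    by_cases h : t ∈ T ∧ u ∈ T ∧ t ≠ u
    · obtain ⟨l, h1, h2⟩ := hjoin t h.1 u h.2.1 h.2.2
      exact ⟨l, fun _ _ _ => ⟨h1, h2⟩⟩
    · exact ⟨l₀, fun h1 h2 h3 => absurd ⟨h1, h2, h3⟩ h⟩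
  choose J hJ using hJ'
  have hJB : ∀ t ∈ T, ∀ u ∈ T, t ≠ u → J t u ∈ B.filter fun l => inc t l := by
    intro t ht u hu htu
    obtain ⟨h1, h2, h3⟩ := hJ t u ht hu htu
    rw [Finset.mem_filter, hB, Finset.mem_filter]
    have := two t ht u hu htu _ h2 h3
    exact ⟨⟨h1, by omega⟩, h2⟩
  -- points off the line `l₀`
  have off : ∀ t ∈ T, ¬ inc t l₀ → c l₀ ≤ s t := by
    intro t ht htl
    rw [hs, hc]
    have hne : ∀ u ∈ T.filter (fun t => inc t l₀), t ≠ u := by
      rintro u hu rfl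
      exact htl (Finset.mem_filter.1 hu).2
    refine Finset.card_le_card_of_injOn (fun u => J t u)
      (fun u hu => hJB t ht u (Finset.mem_filter.1 hu).1 (hne u hu)) ?_
    intro u hu v hv huv
    have hu' := Finset.mem_filter.1 hu
    have hv' := Finset.mem_filter.1 hv
    by_contra hne2
    obtain ⟨h1, h2, h3⟩ := hJ t u ht hu'.1 (hne u hu)
    obtain ⟨g1, g2, g3⟩ := hJ t v ht hv'.1 (hne v hv)
    have huv' : J t u = J t v := huv
    rw [← huv'] at g3
    have := huniq u hu'.1 v hv'.1 hne2 _ h1 _ hl₀ h3 g3 hu'.2 hv'.2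
    rw [this] at h2
    exact htl h2
  -- points on the line `l₀`
  have on : ∀ t ∈ T, inc t l₀ → 2 ≤ s t := by
    intro t ht htl
    have htw : t ≠ w := by
      rintro rfl
      exact hwl htl
    have h1 : l₀ ≠ J t w := by
      intro h
      obtain ⟨-, -, g3⟩ := hJ t w ht hw htw
      rw [← h] at g3
      exact hwl g3
    rw [hs, ← Finset.card_pair h1]
    apply Finset.card_le_card
    intro x hx
    rw [Finset.mem_insert, Finset.mem_singleton] at hx
    rcases hx with rfl | rfl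
    · rw [Finset.mem_filter, hB, Finset.mem_filter]
      exact ⟨⟨hl₀, by omega⟩, htl⟩
    · exact hJB t ht w hw htw
  rcases Nat.lt_or_ge (c l₀) 3 with h3 | h3
  · -- `a = 2`
    have hall : ∀ t ∈ T, q ≤ s t := by
      intro t ht
      have hq' : (T.erase t).card = q := by
        rw [Finset.card_erase_of_mem ht, hT]
        rfl
      rw [hs, ← hq']
      refine Finset.card_le_card_of_injOn (fun u => J t u)
        (fun u hu => hJB t ht u (Finset.mem_erase.1 hu).2 (Finset.mem_erase.1 hu).1.symm) ?_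
      intro u hu v hv huv
      have hu' := Finset.mem_erase.1 hu
      have hv' := Finset.mem_erase.1 hv
      by_contra hne2
      obtain ⟨h1, h2, h3'⟩ := hJ t u ht hu'.2 hu'.1.symm
      obtain ⟨g1, g2, g3⟩ := hJ t v ht hv'.2 hv'.1.symm
      have huv' : J t u = J t v := huv
      rw [← huv'] at g3
      have hc3 : 3 ≤ c (J t u) := by
        have e : ({t, u, v} : Finset P).card = 3 := by
          rw [Finset.card_eq_three]
          exact ⟨t, u, v, hu'.1.symm, hv'.1.symm, hne2, rfl⟩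
        rw [hc, ← e]
        apply Finset.card_le_card
        intro x hx
        rw [Finset.mem_insert, Finset.mem_insert, Finset.mem_singleton] at hx
        rw [Finset.mem_filter]
        rcases hx with rfl | rfl | rfl
        · exact ⟨ht, h2⟩
        · exact ⟨hu'.2, h3'⟩
        · exact ⟨hv'.2, g3⟩
      have := hmax _ h1
      omega
    have h8 : (q + 1) * q ≤ ∑ t ∈ T, s t := by
      have := Finset.card_nsmul_le_sum T s q hall
      rwa [hT, smul_eq_mul] at this
    nlinarith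
  · have h8 : (T.filter fun t => inc t l₀).card + (T.filter fun t => ¬ inc t l₀).card = T.card :=
      Finset.card_filter_add_card_filter_not (s := T) (fun t => inc t l₀)
    have h9 : (T.filter fun t => inc t l₀).card * 2 ≤ ∑ t ∈ T.filter (fun t => inc t l₀), s t := by
      have := Finset.card_nsmul_le_sum (T.filter fun t => inc t l₀) s 2 fun t ht =>
        on t (Finset.mem_filter.1 ht).1 (Finset.mem_filter.1 ht).2
      rwa [smul_eq_mul] at this
    have h10 : (T.filter fun t => ¬ inc t l₀).card * c l₀ ≤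
        ∑ t ∈ T.filter (fun t => ¬ inc t l₀), s t := by
      have := Finset.card_nsmul_le_sum (T.filter fun t => ¬ inc t l₀) s (c l₀) fun t ht =>
        off t (Finset.mem_filter.1 ht).1 (Finset.mem_filter.1 ht).2
      rwa [smul_eq_mul] at this
    have h11 := Finset.sum_filter_add_sum_filter_not T (fun t => inc t l₀) s
    rw [← hc] at h8 h9
    obtain ⟨b, hb⟩ : ∃ b, b = (T.filter fun t => ¬ inc t l₀).card := ⟨_, rfl⟩
    obtain ⟨a, ha⟩ : ∃ a, a = c l₀ := ⟨_, rfl⟩
    rw [← hb, ← ha] at h8 h10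
    rw [← ha] at h9 h3 haq
    rw [hT] at h8
    have hb1 : 1 ≤ b := by omega
    obtain ⟨x, rfl⟩ : ∃ x, a = x + 3 := ⟨a - 3, by omega⟩
    obtain ⟨y, rfl⟩ : ∃ y, b = y + 1 := ⟨b - 1, by omega⟩
    have hqe : q = x + y + 3 := by omega
    rw [hqe, ← h11]
    nlinarith [Nat.zero_le (x * y)]

end Pl

open Finset Module Ind
open scoped Classical LinearAlgebra.Projectivization

theorem lem2 : StPl := by
  intro F V _ _ _ _ _ hV T hT hTc hTn
  have hq2 : 2 ≤ Fintype.card F := Fintype.one_lt_card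
  have key := Pl.abs_lem (fun (t H : Submodule F V) => t ≤ H) (Fintype.card F) hq2 T
    (hs 2 (⊥ : Submodule F V)) (by rw [hTc, th_two, add_comm]) ?_ ?_ ?_ ?_ ?_
  · refine key.trans (le_of_eq ?_)
    rw [← Set.ncard_coe_finset]
    congr 1
    ext H
    rw [Finset.mem_coe, Finset.mem_filter, mem_hs]
    show _ ↔ finrank F H = 2 ∧ cnt T H ≠ th (Fintype.card F) (2 - 1)
    rw [show 2 - 1 = 1 from rfl, th_one]
    exact ⟨fun h => ⟨h.1.1, h.2⟩, fun h => ⟨⟨h.1, bot_le⟩, h.2⟩⟩
  · rw [card_hs 2 hV, finrank_bot]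
    show th (Fintype.card F) 3 = _
    simp [th, Finset.sum_range_succ]
    ring
  · intro t ht
    rw [filter_hs, bot_sup_eq, card_hs 2 hV, hT t ht]
    show th (Fintype.card F) 2 = _
    rw [th_two, add_comm]
  · intro t ht u hu htu
    have hnle : ¬ u ≤ t := by
      intro h
      exact htu (Submodule.eq_of_le_of_finrank_eq h ((hT u hu).trans (hT t ht).symm)).symm
    refine ⟨t ⊔ u, mem_hs.2 ⟨?_, bot_le⟩, le_sup_left, le_sup_right⟩
    rw [pt_sup (hT u hu) hnle, hT t ht]
  · intro t ht u hu htu l hl l' hl' h1 h2 h3 h4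
    have hnle : ¬ u ≤ t := by
      intro h
      exact htu (Submodule.eq_of_le_of_finrank_eq h ((hT u hu).trans (hT t ht).symm)).symm
    have hr : finrank F (t ⊔ u : Submodule F V) = 2 := by
      rw [pt_sup (hT u hu) hnle, hT t ht]
    have e1 := Submodule.eq_of_le_of_finrank_eq (sup_le h1 h2) (hr.trans (mem_hs.1 hl).1.symm)
    have e2 := Submodule.eq_of_le_of_finrank_eq (sup_le h3 h4) (hr.trans (mem_hs.1 hl').1.symm)
    rw [← e1, ← e2]
  · intro l hl
    by_contra h
    push Not at h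
    exact hTn ⟨l, (mem_hs.1 hl).1, h⟩

end Pool.Agent.N337.SD
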