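import Mathlib

set_option autoImplicit false
set_option linter.unusedSectionVars false
set_option linter.unusedVariables false

/-! Project SD: the switching distance of symmetric designs. Definitions and statements. -/

namespace Pool.Agent.N337.SD

open Finset Module
open scoped Classical LinearAlgebra.Projectivization

/-- `th q m = 1 + q + ... + q ^ (m - 1)`. -/
def th (q m : ℕ) : ℕ := ∑ i ∈ range m, q ^ i

/-- The set `𝓑` of `k`-subsets of the `v`-set `X` is a symmetric `(v, k, l)`-design. -/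
structure IsSymm {X : Type} [Fintype X] (k l : ℕ) (𝓑 : Finset (Finset X)) : Prop where
  card_blocks : 𝓑.card = Fintype.card X
  size : ∀ b ∈ 𝓑, b.card = k
  pair : ∀ x y : X, x ≠ y → (𝓑.filter fun b => x ∈ b ∧ y ∈ b).card = l

/-- SD/GEN: file `Pool/Agent/N337/SD/Gen.lean`, theorem `gen : StGen`. -/
def StGen : Prop := ∀ {X : Type} [Fintype X] (k l : ℕ) (𝓑 𝓑' : Finset (Finset X)),
  IsSymm k l 𝓑 → IsSymm k l 𝓑' → 1 ≤ l → k < Fintype.card X → 𝓑 ≠ 𝓑' →
    k + l ≤ l * (𝓑 \ 𝓑').card

/-- Ryser's theorem for `IsSymm` (part of SD/GEN: theorem `ryser : StRyser`). -/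
def StRyser : Prop := ∀ {X : Type} [Fintype X] (k l : ℕ) (𝓑 : Finset (Finset X)),
  IsSymm k l 𝓑 → 1 ≤ l → k < Fintype.card X →
    (∀ x : X, (𝓑.filter fun b => x ∈ b).card = k) ∧
    (∀ b ∈ 𝓑, ∀ c ∈ 𝓑, b ≠ c → (b ∩ c).card = l) ∧ l * (Fintype.card X - 1) = k * (k - 1)

/-- the number of members of `T` (a set of subspaces) contained in the subspace `H` -/
noncomputable def cnt {F V : Type} [Field F] [AddCommGroup V] [Module F V]
    (T : Finset (Submodule F V)) (H : Submodule F V) : ℕ := (T.filter fun p => p ≤ H).card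

/-- the lemma on sets of `th q m` points (one-dimensional subspaces) of a space of dimension
`m + 1`: if they are not all in one hyperplane, then at least `2 q` hyperplanes contain a number of
them different from `th q (m - 1)` -/
def StLem (m : ℕ) : Prop := ∀ {F V : Type} [Field F] [Fintype F] [AddCommGroup V] [Module F V]
    [Finite V] (_ : finrank F V = m + 1) (T : Finset (Submodule F V))
    (_ : ∀ p ∈ T, finrank F p = 1) (_ : T.card = th (Fintype.card F) m)
    (_ : ¬ ∃ H : Submodule F V, finrank F H = m ∧ ∀ p ∈ T, p ≤ H),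
    2 * Fintype.card F ≤
      {H : Submodule F V | finrank F H = m ∧ cnt T H ≠ th (Fintype.card F) (m - 1)}.ncard

/-- SD/PL: file `Pool/Agent/N337/SD/Pl.lean`, theorem `lem2 : StLem 2`. -/
def StPl : Prop := StLem 2

/-- SD/IND: file `Pool/Agent/N337/SD/Ind.lean`, theorem `ind : StInd`. -/
def StInd : Prop := ∀ m : ℕ, 2 ≤ m → StLem m → StLem (m + 1)

noncomputable instance instPt (F : Type) [Field F] [Fintype F] (d : ℕ) :
    Fintype (ℙ F (Fin (d + 1) → F)) := Fintype.ofFinite _

noncomputable instance instSub (F : Type) [Field F] [Fintype F] (d : ℕ) :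
    Fintype (Submodule F (Fin (d + 1) → F)) := Fintype.ofFinite _

/-- the hyperplanes of the projective space `PG(d, F)` as sets of points -/
noncomputable def hyp (F : Type) [Field F] [Fintype F] (d : ℕ) :
    Finset (Finset (ℙ F (Fin (d + 1) → F))) :=
  (univ.filter fun H : Submodule F (Fin (d + 1) → F) => finrank F H = d).image fun H =>
    univ.filter fun x : ℙ F (Fin (d + 1) → F) => x.submodule ≤ H

/-- SD/PG: file `Pool/Agent/N337/SD/PG.lean`, theorem `pg : StPG`. -/
def StPG : Prop := ∀ (F : Type) [Field F] [Fintype F] (d : ℕ), 2 ≤ d →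
  Fintype.card (ℙ F (Fin (d + 1) → F)) = th (Fintype.card F) (d + 1) ∧
  IsSymm (th (Fintype.card F) d) (th (Fintype.card F) (d - 1)) (hyp F d)

/-- SD/SW: file `Pool/Agent/N337/SD/Sw.lean`, theorem `sw : StSw`. -/
def StSw : Prop := ∀ (F : Type) [Field F] [Fintype F] (d : ℕ), 3 ≤ d →
  ∃ 𝓑 : Finset (Finset (ℙ F (Fin (d + 1) → F))),
    IsSymm (th (Fintype.card F) d) (th (Fintype.card F) (d - 1)) 𝓑 ∧
    (hyp F d \ 𝓑).card = 2 * Fintype.card F

end Pool.Agent.N337.SD
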