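import Pool.Agent.N337.SD.Stm
import Pool.Agent.N337.SD.Ind
import Pool.Agent.N337.MJ.Rys

set_option autoImplicit false
set_option linter.unusedSectionVars false
set_option linter.unusedVariables false

/-! SD/SW: Kantor's switching misses exactly `2 q` hyperplanes (helper523). -/

namespace Pool.Agent.N337.SD

namespace Sw

open Finset Module Ind
open scoped Classical LinearAlgebra.Projectivization

theorem th_lt_pow (q : ℕ) (hq : 2 ≤ q) (m : ℕ) : th q m < q ^ m := by
  induction m with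
  | zero => simp [th]
  | succ m ih =>
    rw [th_succ, pow_succ]
    nlinarith [pow_pos (show 0 < q by omega) m]

theorem param (q e : ℕ) : th q e * (th q (e + 2) - 1) = th q (e + 1) * (th q (e + 1) - 1) := by
  rw [show e + 2 = (e + 1) + 1 from rfl, th_succ' q (e + 1), Nat.add_sub_cancel,
    show th q (e + 1) - 1 = q * th q e by rw [th_succ' q e, Nat.add_sub_cancel]]
  ring

/-- the dual of Ryser's theorem -/
theorem dual_pair {ι X : Type} [Fintype ι] [Fintype X] (B : ι → Finset X) {v k l : ℕ}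
    (hk : 2 ≤ k) (hX : Fintype.card X = v) (hι : Fintype.card ι = v)
    (hsz : ∀ i, (B i).card = k) (hin : ∀ i j, i ≠ j → (B i ∩ B j).card = l)
    (hvl : l * (v - 1) = k * (k - 1)) {x y : X} (hxy : x ≠ y) :
    (univ.filter fun i => x ∈ B i ∧ y ∈ B i).card = l := by
  have s1 : ∑ x, (univ.filter fun i => x ∈ B i).card = v * k := by
    simp_rw [Finset.card_filter]
    rw [Finset.sum_comm]
    have : ∀ i, ∑ x, (if x ∈ B i then 1 else 0) = k := fun i => by
      rw [← Finset.card_filter, Finset.filter_univ_mem, hsz]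
    simp_rw [this]
    simp [hι]
  have s2 : ∑ x, (univ.filter fun i => x ∈ B i).card ^ 2 = v * (k + (v - 1) * l) := by
    have h1 : ∀ x, (univ.filter fun i => x ∈ B i).card ^ 2 =
        ∑ i, ∑ j, if x ∈ B i ∧ x ∈ B j then 1 else 0 := by
      intro x
      rw [sq, Finset.card_filter, Finset.sum_mul_sum]
      refine Finset.sum_congr rfl fun i _ => Finset.sum_congr rfl fun j _ => ?_
      by_cases h1 : x ∈ B i <;> by_cases h2 : x ∈ B j <;> simp [h1, h2]
    simp_rw [h1]
    rw [Finset.sum_comm]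
    have h2 : ∀ i, ∑ x, ∑ j, (if x ∈ B i ∧ x ∈ B j then 1 else 0) = k + (v - 1) * l := by
      intro i
      rw [Finset.sum_comm, ← Finset.add_sum_erase _ _ (Finset.mem_univ i)]
      have h3 : ∀ j, ∑ x, (if x ∈ B i ∧ x ∈ B j then 1 else 0) = (B i ∩ B j).card := by
        intro j
        rw [← Finset.card_filter]
        congr 1
        ext x
        simp
      simp_rw [h3]
      rw [Finset.inter_self, hsz, Finset.sum_congr rfl (g := fun _ => l)
        (fun j hj => hin i j (Finset.ne_of_mem_erase hj).symm), Finset.sum_const,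
        Finset.card_erase_of_mem (Finset.mem_univ i), Finset.card_univ, hι, smul_eq_mul]
    simp_rw [h2]
    simp [hι]
  have vpos : 0 < v := hX ▸ Fintype.card_pos_iff.2 ⟨x⟩
  have s3 : ∑ x, (((univ.filter fun i => x ∈ B i).card : ℤ) - k) ^ 2 = 0 := by
    have e1 : ∑ x, (((univ.filter fun i => x ∈ B i).card : ℤ) - k) ^ 2 =
        ∑ x, ((univ.filter fun i => x ∈ B i).card : ℤ) ^ 2 -
          2 * k * ∑ x, ((univ.filter fun i => x ∈ B i).card : ℤ) + (v : ℤ) * (k : ℤ) ^ 2 := by
      rw [Finset.mul_sum, ← Finset.sum_sub_distrib, ← hX, ← Finset.card_univ, ← nsmul_eq_mul,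
        ← Finset.sum_const, ← Finset.sum_add_distrib]
      refine Finset.sum_congr rfl fun j _ => ?_
      ring
    have s1' : ∑ x, ((univ.filter fun i => x ∈ B i).card : ℤ) = v * k := by exact_mod_cast s1
    have s2' : ∑ x, ((univ.filter fun i => x ∈ B i).card : ℤ) ^ 2 =
        v * (k + (v - 1 : ℕ) * l) := by exact_mod_cast s2
    have h4 : ((l : ℤ) * ((v - 1 : ℕ) : ℤ)) = k * ((k : ℤ) - 1) := by
      have : ((k - 1 : ℕ) : ℤ) = (k : ℤ) - 1 := by
        rw [Nat.cast_sub (by omega)]; simp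
      rw [← this]
      exact_mod_cast hvl
    rw [e1, s1', s2']
    have e2 : ((v : ℤ) * (k + ((v - 1 : ℕ) : ℤ) * l)) = v * (k + (l : ℤ) * ((v - 1 : ℕ) : ℤ)) := by
      ring
    rw [e2, h4]
    ring
  have s4 : ∀ x, (univ.filter fun i => x ∈ B i).card = k := by
    intro x
    have h8 := (Finset.sum_eq_zero_iff_of_nonneg (fun j _ => sq_nonneg _)).1 s3 x
      (Finset.mem_univ x)
    have h9 : ((univ.filter fun i => x ∈ B i).card : ℤ) - k = 0 :=
      pow_eq_zero_iff (two_ne_zero) |>.1 h8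
    omega
  have h := Pool.Agent.N337.MJ.rys_inter (V := ι) (ι := X)
    (B := fun x => univ.filter fun i => x ∈ B i) hk hι hX s4
    (fun i j hij => by
      rw [← hin i j hij]
      congr 1
      ext x
      simp) hvl hxy
  rw [← Finset.filter_and] at h
  exact h

section pts

variable {F : Type} [Field F] [Fintype F] {d : ℕ}

/-- the points of a subspace -/
noncomputable def P (W : Submodule F (Fin (d + 1) → F)) : Finset (ℙ F (Fin (d + 1) → F)) :=
  univ.filter fun x : ℙ F (Fin (d + 1) → F) => x.submodule ≤ W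

theorem mem_P {W : Submodule F (Fin (d + 1) → F)} {x : ℙ F (Fin (d + 1) → F)} :
    x ∈ P W ↔ x.submodule ≤ W := by simp [P]

theorem card_P (W : Submodule F (Fin (d + 1) → F)) :
    (P W).card = th (Fintype.card F) (finrank F W) := by
  have h := Ind.pts W
  have e : {p : Submodule F (Fin (d + 1) → F) | finrank F p = 1 ∧ p ≤ W} =
      (fun x : ℙ F (Fin (d + 1) → F) => x.submodule) '' (P W : Set (ℙ F (Fin (d + 1) → F))) := by
    ext p
    constructor
    · rintro ⟨h1, h2⟩
      refine ⟨Projectivization.mk'' p h1, ?_, Projectivization.submodule_mk'' p h1⟩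
      rw [Finset.mem_coe, mem_P, Projectivization.submodule_mk'']
      exact h2
    · rintro ⟨x, hx, rfl⟩
      exact ⟨x.finrank_submodule, mem_P.1 hx⟩
  rw [e, Set.ncard_image_of_injective _ Projectivization.submodule_injective,
    Set.ncard_coe_finset] at h
  exact h

theorem P_inf (W U : Submodule F (Fin (d + 1) → F)) : P (W ⊓ U) = P W ∩ P U := by
  ext x
  simp [mem_P, le_inf_iff]

theorem le_of_P {W U : Submodule F (Fin (d + 1) → F)} (h : P W ⊆ P U) : W ≤ U := by
  intro v hv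
  by_cases h0 : v = 0
  · rw [h0]; exact U.zero_mem
  · have h1 : Projectivization.mk F v h0 ∈ P W := by
      rw [mem_P, Projectivization.submodule_mk]
      exact (Submodule.span_singleton_le_iff_mem _ _).2 hv
    have h2 := h h1
    rw [mem_P, Projectivization.submodule_mk] at h2
    exact (Submodule.span_singleton_le_iff_mem _ _).1 h2

theorem P_inj {W U : Submodule F (Fin (d + 1) → F)} (h : P W = P U) : W = U :=
  le_antisymm (le_of_P h.subset) (le_of_P h.symm.subset)

end pts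

/-- the configuration -/
structure Cfg {F : Type} [Field F] [Fintype F] {e : ℕ}
    (H0 U1 U2 : Submodule F (Fin (e + 1 + 1) → F)) : Prop where
  rH : finrank F H0 = e + 1
  r1 : finrank F U1 = e
  r2 : finrank F U2 = e
  l1 : U1 ≤ H0
  l2 : U2 ≤ H0
  ne : U1 ≠ U2

section cfg

variable {F : Type} [Field F] [Fintype F] {e : ℕ}
    {H0 U1 U2 : Submodule F (Fin (e + 1 + 1) → F)}

theorem rk_inf {X Y : Submodule F (Fin (e + 1 + 1) → F)} (hX : finrank F X = e + 1)
    (hY : finrank F Y = e + 1) (h : X ≠ Y) : finrank F (X ⊓ Y : Submodule F _) = e := by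
  have := Ind.inf_rank (K := (⊤ : Submodule F (Fin (e + 1 + 1) → F))) (n := e + 1)
    (by rw [finrank_top, Module.finrank_fin_fun]) hX hY le_top le_top h
  omega

/-- the switched trace -/
noncomputable def sw' (U1 U2 U : Submodule F (Fin (e + 1 + 1) → F)) :
    Submodule F (Fin (e + 1 + 1) → F) := Equiv.swap U1 U2 U

/-- the switched hyperplane -/
noncomputable def B' (H0 U1 U2 X : Submodule F (Fin (e + 1 + 1) → F)) :
    Finset (ℙ F (Fin (e + 1 + 1) → F)) :=
  if X = H0 then P H0 else (P X \ P H0) ∪ P (sw' U1 U2 (X ⊓ H0))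

theorem Cfg.sw_facts (c : Cfg H0 U1 U2) {U : Submodule F (Fin (e + 1 + 1) → F)}
    (hr : finrank F U = e) (hl : U ≤ H0) : finrank F (sw' U1 U2 U) = e ∧ sw' U1 U2 U ≤ H0 := by
  unfold sw'
  by_cases h1 : U = U1
  · subst h1
    rw [Equiv.swap_apply_left]
    exact ⟨c.r2, c.l2⟩
  · by_cases h2 : U = U2
    · subst h2
      rw [Equiv.swap_apply_right]
      exact ⟨c.r1, c.l1⟩
    · rw [Equiv.swap_apply_of_ne_of_ne h1 h2]
      exact ⟨hr, hl⟩

theorem Cfg.tr (c : Cfg H0 U1 U2) {X : Submodule F (Fin (e + 1 + 1) → F)}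
    (hX : finrank F X = e + 1) (h : X ≠ H0) :
    finrank F (sw' U1 U2 (X ⊓ H0)) = e ∧ sw' U1 U2 (X ⊓ H0) ≤ H0 :=
  c.sw_facts (rk_inf hX c.rH h) inf_le_right

theorem P_sub {W U : Submodule F (Fin (e + 1 + 1) → F)} (h : W ≤ U) : P W ⊆ P U := fun x hx =>
  mem_P.2 ((mem_P.1 hx).trans h)

theorem card_out (c : Cfg H0 U1 U2) {X : Submodule F (Fin (e + 1 + 1) → F)}
    (hX : finrank F X = e + 1) (h : X ≠ H0) :
    (P X \ P H0).card = Fintype.card F ^ e := by
  have h1 := Finset.card_sdiff_add_card_inter (P X) (P H0)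
  rw [← P_inf, card_P, card_P, rk_inf hX c.rH h, hX, th_succ] at h1
  omega

theorem Cfg.card_B' (c : Cfg H0 U1 U2) {X : Submodule F (Fin (e + 1 + 1) → F)}
    (hX : finrank F X = e + 1) : (B' H0 U1 U2 X).card = th (Fintype.card F) (e + 1) := by
  unfold B'
  split_ifs with h
  · rw [card_P, c.rH]
  · obtain ⟨h1, h2⟩ := c.tr hX h
    rw [Finset.card_union_of_disjoint, card_out c hX h, card_P, h1, th_succ, add_comm]
    exact Finset.disjoint_left.2 fun x hx hy => (Finset.mem_sdiff.1 hx).2 (P_sub h2 hy)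

theorem Cfg.inter (c : Cfg H0 U1 U2) {X Y : Submodule F (Fin (e + 1 + 1) → F)}
    (hX : finrank F X = e + 1) (hY : finrank F Y = e + 1) (h : X ≠ Y) :
    (B' H0 U1 U2 X ∩ B' H0 U1 U2 Y).card = th (Fintype.card F) e := by
  -- the case where one of them is `H0`
  have key : ∀ {Y : Submodule F (Fin (e + 1 + 1) → F)}, finrank F Y = e + 1 → Y ≠ H0 →
      B' H0 U1 U2 Y ∩ P H0 = P (sw' U1 U2 (Y ⊓ H0)) := by
    intro Y hY h
    obtain ⟨h1, h2⟩ := c.tr hY h
    unfold B'
    rw [if_neg h]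
    ext x
    simp only [mem_inter, mem_union, mem_sdiff]
    constructor
    · rintro ⟨h3 | h3, h4⟩
      · exact absurd h4 h3.2
      · exact h3
    · intro h3
      exact ⟨Or.inr h3, P_sub h2 h3⟩
  by_cases hX0 : X = H0
  · have hY0 : Y ≠ H0 := fun h' => h (hX0.trans h'.symm)
    have : B' H0 U1 U2 X = P H0 := by unfold B'; rw [if_pos hX0]
    rw [this, Finset.inter_comm, key hY hY0, card_P, (c.tr hY hY0).1]
  · by_cases hY0 : Y = H0
    · have : B' H0 U1 U2 Y = P H0 := by unfold B'; rw [if_pos hY0]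
      rw [this, key hX hX0, card_P, (c.tr hX hX0).1]
    · -- split into the part in `H0` and the part outside
      have e1 : (B' H0 U1 U2 X ∩ B' H0 U1 U2 Y) ∩ P H0 =
          P (sw' U1 U2 (X ⊓ H0) ⊓ sw' U1 U2 (Y ⊓ H0)) := by
        rw [P_inf, ← key hX hX0, ← key hY hY0]
        ext x
        simp only [mem_inter]
        tauto
      have e2 : (B' H0 U1 U2 X ∩ B' H0 U1 U2 Y) \ P H0 = (P (X ⊓ Y)) \ P H0 := by
        obtain ⟨_, h2⟩ := c.tr hX hX0
        obtain ⟨_, h4⟩ := c.tr hY hY0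
        unfold B'
        rw [if_neg hX0, if_neg hY0, P_inf]
        ext x
        simp only [mem_sdiff, mem_inter, mem_union]
        constructor
        · rintro ⟨⟨h5 | h5, h6 | h6⟩, h7⟩
          · exact ⟨⟨h5.1, h6.1⟩, h7⟩
          · exact absurd (P_sub h4 h6) h7
          · exact absurd (P_sub h2 h5) h7
          · exact absurd (P_sub h2 h5) h7
        · rintro ⟨⟨h5, h6⟩, h7⟩
          exact ⟨⟨Or.inl ⟨h5, h7⟩, Or.inl ⟨h6, h7⟩⟩, h7⟩
      have e3 := Finset.card_sdiff_add_card_inter (B' H0 U1 U2 X ∩ B' H0 U1 U2 Y) (P H0)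
      have e4 := Finset.card_sdiff_add_card_inter (P (X ⊓ Y)) (P H0)
      have e5 : P (X ⊓ Y) ∩ P H0 = P ((X ⊓ H0) ⊓ (Y ⊓ H0)) := by
        rw [← P_inf]
        congr 1
        exact inf_inf_distrib_right X Y H0
      have e6 : finrank F ((X ⊓ H0) ⊓ (Y ⊓ H0) : Submodule F _) =
          finrank F (sw' U1 U2 (X ⊓ H0) ⊓ sw' U1 U2 (Y ⊓ H0) : Submodule F _) := by
        by_cases hU : X ⊓ H0 = Y ⊓ H0
        · rw [hU, inf_idem, inf_idem, rk_inf hY c.rH hY0, (c.tr hY hY0).1]
        · have hU' : sw' U1 U2 (X ⊓ H0) ≠ sw' U1 U2 (Y ⊓ H0) := fun h' =>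
            hU ((Equiv.swap U1 U2).injective h')
          have f1 := Ind.inf_rank c.rH (rk_inf hX c.rH hX0) (rk_inf hY c.rH hY0) inf_le_right
            inf_le_right hU
          have f2 := Ind.inf_rank c.rH (c.tr hX hX0).1 (c.tr hY hY0).1 (c.tr hX hX0).2
            (c.tr hY hY0).2 hU'
          omega
      rw [e1, e2, card_P] at e3
      rw [e5, card_P, card_P, rk_inf hX hY h, e6] at e4
      omega

theorem ex_cfg (he : 2 ≤ e) : ∃ H0 U1 U2 : Submodule F (Fin (e + 1 + 1) → F), Cfg H0 U1 U2 := by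
  have hq : 2 ≤ Fintype.card F := Fintype.one_lt_card
  have hn : finrank F (Fin (e + 1 + 1) → F) = (e + 1) + 1 := Module.finrank_fin_fun F
  have hc0 : (hs (F := F) (V := Fin (e + 1 + 1) → F) (e + 1) ⊥).card =
      th (Fintype.card F) (e + 1 + 1) := by
    rw [card_hs (e + 1) hn, finrank_bot]
    rfl
  have h2 : 1 < th (Fintype.card F) (e + 1 + 1) := by
    rw [th_succ, th_succ]
    have := pow_pos (show 0 < Fintype.card F by omega) (e + 1)
    have := pow_pos (show 0 < Fintype.card F by omega) e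
    omega
  obtain ⟨H0, hH0⟩ := Finset.card_pos.1 (by rw [hc0]; omega :
    0 < (hs (F := F) (V := Fin (e + 1 + 1) → F) (e + 1) ⊥).card)
  obtain ⟨X1, hX1, hne1⟩ := Finset.exists_mem_ne (by rw [hc0]; exact h2 :
    1 < (hs (F := F) (V := Fin (e + 1 + 1) → F) (e + 1) ⊥).card) H0
  rw [mem_hs] at hH0 hX1
  have r1 := rk_inf hX1.1 hH0.1 hne1
  have hp : 0 < (P (X1 ⊓ H0)).card := by
    rw [card_P, r1]
    obtain ⟨k, rfl⟩ : ∃ k, e = k + 1 := ⟨e - 1, by omega⟩
    rw [th_succ]
    have := pow_pos (show 0 < Fintype.card F by omega) k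
    omega
  obtain ⟨x, hx⟩ := Finset.card_pos.1 hp
  rw [mem_P] at hx
  have hlt : (hs (F := F) (e + 1) x.submodule).card <
      (hs (F := F) (V := Fin (e + 1 + 1) → F) (e + 1) ⊥).card := by
    rw [hc0, card_hs (e + 1) hn, x.finrank_submodule, th_succ _ (e + 1),
      show e + 1 + 1 - 1 = e + 1 from rfl]
    have := pow_pos (show 0 < Fintype.card F by omega) (e + 1)
    omega
  obtain ⟨X2, hX2, hX2'⟩ : ∃ X2 ∈ hs (F := F) (V := Fin (e + 1 + 1) → F) (e + 1) ⊥,
      X2 ∉ hs (F := F) (e + 1) x.submodule := by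
    by_contra hcon
    push Not at hcon
    exact absurd (Finset.card_le_card hcon) (not_le.2 hlt)
  rw [mem_hs] at hX2 hX2'
  have hX2n : ¬ x.submodule ≤ X2 := fun h => hX2' ⟨hX2.1, h⟩
  have hne2 : X2 ≠ H0 := fun h => hX2n (h ▸ hx.trans inf_le_right)
  refine ⟨H0, X1 ⊓ H0, X2 ⊓ H0, hH0.1, r1, rk_inf hX2.1 hH0.1 hne2, inf_le_right, inf_le_right,
    fun h => hX2n ?_⟩
  rw [h] at hx
  exact hx.trans inf_le_left

/-- the blocks -/
noncomputable def BB (H0 U1 U2 : Submodule F (Fin (e + 1 + 1) → F)) :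
    Finset (Finset (ℙ F (Fin (e + 1 + 1) → F))) :=
  (univ.filter fun X : Submodule F (Fin (e + 1 + 1) → F) => finrank F X = e + 1).image
    (B' H0 U1 U2)

theorem mem_BB {b : Finset (ℙ F (Fin (e + 1 + 1) → F))} : b ∈ BB H0 U1 U2 ↔
    ∃ X : Submodule F (Fin (e + 1 + 1) → F), finrank F X = e + 1 ∧ B' H0 U1 U2 X = b := by
  simp [BB]

theorem Cfg.inj (c : Cfg H0 U1 U2) {X Y : Submodule F (Fin (e + 1 + 1) → F)}
    (hX : finrank F X = e + 1) (hY : finrank F Y = e + 1)
    (h : B' H0 U1 U2 X = B' H0 U1 U2 Y) : X = Y := by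
  by_contra hne
  have h1 := c.inter hX hY hne
  rw [← h, Finset.inter_self, c.card_B' hX, th_succ] at h1
  have := pow_pos (show 0 < Fintype.card F from Fintype.card_pos) e
  omega

theorem hyp_card : (univ.filter fun X : Submodule F (Fin (e + 1 + 1) → F) =>
    finrank F X = e + 1).card = th (Fintype.card F) (e + 1 + 1) := by
  have hn : finrank F (Fin (e + 1 + 1) → F) = (e + 1) + 1 := Module.finrank_fin_fun F
  have := card_hs (F := F) (e + 1) hn ⊥
  rw [finrank_bot] at this
  rw [show th (Fintype.card F) (e + 1 + 1) = th (Fintype.card F) (e + 1 + 1 - 0) from rfl, ← this]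
  congr 1
  ext X
  simp [mem_hs]

theorem pt_card : Fintype.card (ℙ F (Fin (e + 1 + 1) → F)) =
    th (Fintype.card F) (e + 1 + 1) := by
  have h := card_P (⊤ : Submodule F (Fin (e + 1 + 1) → F))
  rw [finrank_top, Module.finrank_fin_fun] at h
  rw [← h, ← Finset.card_univ]
  congr 1
  ext x
  simp [mem_P]

theorem Cfg.symm' (c : Cfg H0 U1 U2) (he : 2 ≤ e) :
    IsSymm (th (Fintype.card F) (e + 1)) (th (Fintype.card F) e) (BB H0 U1 U2) := by
  have hq : 2 ≤ Fintype.card F := Fintype.one_lt_card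
  refine ⟨?_, ?_, ?_⟩
  · rw [pt_card, ← hyp_card, BB]
    refine Finset.card_image_of_injOn ?_
    intro X hX Y hY h
    simp only [Finset.coe_filter, Finset.mem_univ, true_and, Set.mem_setOf_eq] at hX hY
    exact c.inj hX hY h
  · intro b hb
    obtain ⟨X, hX, rfl⟩ := mem_BB.1 hb
    exact c.card_B' hX
  · intro x y hxy
    have h := dual_pair (ι := {X : Submodule F (Fin (e + 1 + 1) → F) // finrank F X = e + 1})
      (fun X => B' H0 U1 U2 X.1) (v := th (Fintype.card F) (e + 2))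
      (k := th (Fintype.card F) (e + 1)) (l := th (Fintype.card F) e)
      (by
        obtain ⟨k, rfl⟩ : ∃ k, e = k + 1 := ⟨e - 1, by omega⟩
        rw [th_succ, th_succ]
        have := pow_pos (show 0 < Fintype.card F by omega) (k + 1)
        have := pow_pos (show 0 < Fintype.card F by omega) k
        omega)
      pt_card
      (by rw [Fintype.card_subtype, hyp_card])
      (fun X => c.card_B' X.2)
      (fun X Y hne => c.inter X.2 Y.2 fun h => hne (Subtype.ext h))
      (param _ _) hxy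
    rw [← h]
    have e1 : (BB H0 U1 U2).filter (fun b => x ∈ b ∧ y ∈ b) =
        (univ.filter fun X : {X : Submodule F (Fin (e + 1 + 1) → F) // finrank F X = e + 1} =>
          x ∈ B' H0 U1 U2 X.1 ∧ y ∈ B' H0 U1 U2 X.1).image (fun X => B' H0 U1 U2 X.1) := by
      ext b
      simp only [Finset.mem_filter, mem_BB, Finset.mem_image, Finset.mem_univ, true_and,
        Subtype.exists]
      constructor
      · rintro ⟨⟨X, hX, rfl⟩, h1⟩
        exact ⟨X, hX, h1, rfl⟩
      · rintro ⟨X, hX, h1, rfl⟩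
        exact ⟨⟨X, hX, rfl⟩, h1⟩
    rw [e1]
    refine Finset.card_image_of_injective _ ?_
    intro X Y hXY
    exact Subtype.ext (c.inj X.2 Y.2 hXY)

theorem Cfg.count (c : Cfg H0 U1 U2) {U : Submodule F (Fin (e + 1 + 1) → F)}
    (hr : finrank F U = e) (hl : U ≤ H0) :
    (univ.filter fun X : Submodule F (Fin (e + 1 + 1) → F) =>
      (finrank F X = e + 1 ∧ X ≠ H0) ∧ X ⊓ H0 = U).card = Fintype.card F := by
  have hn : finrank F (Fin (e + 1 + 1) → F) = (e + 1) + 1 := Module.finrank_fin_fun F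
  have h1 := card_hs (F := F) (e + 1) hn U
  rw [hr, show e + 1 + 1 - e = 2 by omega, th_two] at h1
  have h2 : (univ.filter fun X : Submodule F (Fin (e + 1 + 1) → F) =>
      (finrank F X = e + 1 ∧ X ≠ H0) ∧ X ⊓ H0 = U) = (hs (e + 1) U).erase H0 := by
    ext X
    simp only [Finset.mem_filter, Finset.mem_univ, true_and, Finset.mem_erase, mem_hs]
    constructor
    · rintro ⟨⟨h1, h2⟩, h3⟩
      exact ⟨h2, h1, h3 ▸ inf_le_left⟩
    · rintro ⟨h1, h2, h3⟩
      exact ⟨⟨h2, h1⟩, Ind.inf_eq h2 c.rH h1 hr h3 hl⟩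
  rw [h2, Finset.card_erase_of_mem (mem_hs.2 ⟨c.rH, hl⟩), h1]
  omega

theorem Cfg.diff (c : Cfg H0 U1 U2) :
    hyp F (e + 1) \ BB H0 U1 U2 =
      (univ.filter fun X : Submodule F (Fin (e + 1 + 1) → F) =>
        ((finrank F X = e + 1 ∧ X ≠ H0) ∧ X ⊓ H0 = U1) ∨
        ((finrank F X = e + 1 ∧ X ≠ H0) ∧ X ⊓ H0 = U2)).image P := by
  have hq : 2 ≤ Fintype.card F := Fintype.one_lt_card
  -- a hyperplane with one of the two traces is not in the design
  have key : ∀ X : Submodule F (Fin (e + 1 + 1) → F), finrank F X = e + 1 → X ≠ H0 →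
      sw' U1 U2 (X ⊓ H0) ≠ X ⊓ H0 → P X ∉ BB H0 U1 U2 := by
    intro X hX h0 hs hb
    obtain ⟨Y, hY, hYX⟩ := mem_BB.1 hb
    have hsub : P X \ P H0 ⊆ B' H0 U1 U2 X ∩ B' H0 U1 U2 Y := by
      intro x hx
      rw [Finset.mem_inter, hYX]
      refine ⟨?_, (Finset.mem_sdiff.1 hx).1⟩
      unfold B'
      rw [if_neg h0]
      exact Finset.mem_union_left _ hx
    by_cases hXY : X = Y
    · subst hXY
      obtain ⟨h1, h2⟩ := c.tr hX h0
      apply hs
      apply P_inj
      have h3 : B' H0 U1 U2 X ∩ P H0 = P (sw' U1 U2 (X ⊓ H0)) := by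
        unfold B'
        rw [if_neg h0]
        ext x
        simp only [mem_inter, mem_union, mem_sdiff]
        constructor
        · rintro ⟨h3 | h3, h4⟩
          · exact absurd h4 h3.2
          · exact h3
        · intro h3
          exact ⟨Or.inr h3, P_sub h2 h3⟩
      rw [← h3, hYX, P_inf]
    · have h1 := Finset.card_le_card hsub
      rw [c.inter hX hY hXY, card_out c hX h0] at h1
      exact absurd h1 (not_le.2 (th_lt_pow _ hq e))
  ext b
  rw [Finset.mem_sdiff, Finset.mem_image]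
  constructor
  · rintro ⟨h1, h2⟩
    unfold hyp at h1
    obtain ⟨X, hX, rfl⟩ := Finset.mem_image.1 h1
    rw [Finset.mem_filter] at hX
    refine ⟨X, ?_, rfl⟩
    rw [Finset.mem_filter]
    refine ⟨Finset.mem_univ _, ?_⟩
    by_contra hcon
    push Not at hcon
    apply h2
    refine mem_BB.2 ⟨X, hX.2, ?_⟩
    show B' H0 U1 U2 X = P X
    unfold B'
    split_ifs with h0
    · rw [h0]
    · have e1 : sw' U1 U2 (X ⊓ H0) = X ⊓ H0 := by
        unfold sw'
        exact Equiv.swap_apply_of_ne_of_ne (hcon.1 ⟨hX.2, h0⟩) (hcon.2 ⟨hX.2, h0⟩)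
      rw [e1, P_inf]
      ext x
      simp only [mem_union, mem_sdiff, mem_inter]
      tauto
  · rintro ⟨X, hX, rfl⟩
    rw [Finset.mem_filter] at hX
    constructor
    · unfold hyp
      refine Finset.mem_image.2 ⟨X, ?_, rfl⟩
      rw [Finset.mem_filter]
      exact ⟨Finset.mem_univ _, by rcases hX.2 with h | h <;> exact h.1.1⟩
    · rcases hX.2 with h | h
      · refine key X h.1.1 h.1.2 ?_
        rw [h.2]
        unfold sw'
        rw [Equiv.swap_apply_left]
        exact c.ne.symm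
      · refine key X h.1.1 h.1.2 ?_
        rw [h.2]
        unfold sw'
        rw [Equiv.swap_apply_right]
        exact c.ne

theorem Cfg.card_diff (c : Cfg H0 U1 U2) :
    (hyp F (e + 1) \ BB H0 U1 U2).card = 2 * Fintype.card F := by
  rw [c.diff, Finset.card_image_of_injective _ (fun X Y h => P_inj h), Finset.filter_or,
    Finset.card_union_of_disjoint, c.count c.r1 c.l1, c.count c.r2 c.l2]
  · ring
  · rw [Finset.disjoint_left]
    intro X h1 h2
    rw [Finset.mem_filter] at h1 h2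
    exact c.ne (h1.2.2.symm.trans h2.2.2)

end cfg

end Sw

open Sw in
/-- SD/SW -/
theorem sw : StSw := by
  intro F _ _ d hd
  obtain ⟨e, rfl⟩ : ∃ e, d = e + 1 := ⟨d - 1, by omega⟩
  obtain ⟨H0, U1, U2, c⟩ := ex_cfg (F := F) (e := e) (by omega)
  exact ⟨BB H0 U1 U2, c.symm' (by omega), c.card_diff⟩

end Pool.Agent.N337.SD
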